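import Pool.Agent.H593R3.DST.Map
import Pool.Agent.H620R2.Gauge2.Defs

/-!
# Polynomial time relative to an oracle: applying a function to a list of strings
-/

namespace Pool.Agent.J4H95.TV

open Pool.Agent.NPC Pool.Agent.H622R2 Pool.Agent.H620R2.Gauge Pool.Agent.H593R3.DST

theorem poly_enc {ℓ : List Bool → List (List Bool)} (hℓ : Poly ℓ) :
    Poly (fun x => enc (ℓ x)) := by
  obtain ⟨r, hr⟩ := hℓ.sz_le
  have key : ∀ l : List (List Bool), (l.foldr (fun x s => pairBits x s) []) = enc l := by
    intro l
    induction l with
    | nil => rfl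
    | cons x l ih => rw [List.foldr_cons, ih]; rfl
  have key2 : ∀ l : List (List Bool), (enc l).length ≤ 2 * sz l := by
    intro l
    induction l with
    | nil => simp [enc]
    | cons x l ih =>
        rw [enc, Pool.Agent.H620R2.Gauge.length_pairBits, sz_list_cons]
        have := sz_listBool_ge x
        omega
  refine (Poly.foldr (l := ℓ) (s := fun _ => ([] : List Bool))
    (F := fun _ x s => pairBits x s) hℓ (NPC.Poly.const _)
    (poly_pairBits (Poly.fst (Poly.snd Poly.id)) (Poly.snd (Poly.snd Poly.id)))
    (Polynomial.C 8 * r + Polynomial.C 1) ?_).congr fun a => key _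
  intro a k _
  rw [key]
  have h1 := sz_listBool_le (enc ((ℓ a).drop k))
  have h2 := key2 ((ℓ a).drop k)
  have h3 := NPC.Poly.sz_drop_le (ℓ a) k
  have h4 := hr a
  simp only [Polynomial.eval_add, Polynomial.eval_mul, Polynomial.eval_C]
  omega

/-- one step of decoding a list of strings -/
def dstep (s : List (List Bool) × List Bool) : List (List Bool) × List Bool :=
  if s.2 = [] then s else ((unpair s.2).1 :: s.1, (unpair s.2).2)

theorem dstep_iter : ∀ (xs acc : List (List Bool)) (k : ℕ), xs.length ≤ k →
    dstep^[k] (acc, enc xs) = (xs.reverse ++ acc, []) := by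
  intro xs
  induction xs with
  | nil =>
      intro acc k _
      induction k with
      | zero => rfl
      | succ k ih =>
          rw [Function.iterate_succ_apply]
          exact ih (by simp)
  | cons x xs ih =>
      intro acc k hk
      obtain ⟨k, rfl⟩ : ∃ j, k = j + 1 := ⟨k - 1, by simp at hk; omega⟩
      rw [Function.iterate_succ_apply]
      have e : dstep (acc, enc (x :: xs)) = (x :: acc, enc xs) := by
        unfold dstep
        rw [if_neg (enc_ne_nil x xs), enc, unpair_pairBits]
      rw [e, ih (x :: acc) k (by simpa using hk)]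
      simp

theorem dstep_sz (s : List (List Bool) × List Bool) :
    sz (dstep s).1 + 4 * (dstep s).2.length ≤ sz s.1 + 4 * s.2.length + 2 ∧
      (dstep s).2.length ≤ s.2.length := by
  unfold dstep
  split
  · omega
  · have h1 := unpair_len s.2
    have h2 := sz_listBool_le (unpair s.2).1
    simp only [sz_list_cons]
    omega

/-- decoding a list of strings -/
def dec' (x : List Bool) : List (List Bool) := (dstep^[x.length] ([], x)).1.reverse

theorem dec'_enc (xs : List (List Bool)) : dec' (enc xs) = xs := by
  unfold dec'
  rw [dstep_iter xs [] _ (length_le_enc xs)]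
  simp

theorem poly_dec' : Poly dec' := by
  have h1 : Poly (fun s : List (List Bool) × List Bool => dstep s) :=
    Poly.ite (Poly.decide_eq (Poly.snd Poly.id) (NPC.Poly.const _)) Poly.id
      (Poly.pair (Poly.cons (Poly.fst (poly_unpair.comp (Poly.snd Poly.id))) (Poly.fst Poly.id))
        (Poly.snd (poly_unpair.comp (Poly.snd Poly.id))))
  have h2 : ∀ (x : List Bool) (k : ℕ), sz (dstep^[k] ([], x)).1 +
      4 * (dstep^[k] ([], x)).2.length ≤ 1 + 4 * x.length + 2 * k ∧
      (dstep^[k] ([], x)).2.length ≤ x.length := by
    intro x k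
    induction k with
    | zero => simp
    | succ k ih =>
        rw [Function.iterate_succ_apply']
        have := dstep_sz (dstep^[k] ([], x))
        omega
  refine Poly.reverse (Poly.fst (Poly.iterLen (l := fun x : List Bool => x)
    (s := fun x => (([], x) : List (List Bool) × List Bool)) (F := fun _ s => dstep s)
    Poly.id (Poly.pair (NPC.Poly.const _) Poly.id) (h1.comp (Poly.snd Poly.id))
    (Polynomial.C 10 * Polynomial.X + Polynomial.C 10) ?_))
  intro x k hk
  have h3 := h2 x k
  have h4 := sz_listBool_le (dstep^[k] (([], x) : List (List Bool) × List Bool)).2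
  have h5 := sz_listBool_ge x
  have h6 : sz (dstep^[k] (([], x) : List (List Bool) × List Bool)) =
      sz (dstep^[k] (([], x) : List (List Bool) × List Bool)).1 +
      sz (dstep^[k] (([], x) : List (List Bool) × List Bool)).2 + 1 := sz_pair _ _
  change sz (dstep^[k] (([], x) : List (List Bool) × List Bool)) ≤ _
  rw [h6]
  simp only [Polynomial.eval_add, Polynomial.eval_mul, Polynomial.eval_C, Polynomial.eval_X]
  omega

/-- A polynomial-time combination of the results of a function on a list of strings. -/
theorem isFP_map {A : Oracle} {f : List Bool → List Bool} (hf : IsFP A f)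
    {ℓ : List Bool → List (List Bool)} (hℓ : Poly ℓ)
    {ψ : List Bool × List (List Bool) → List Bool} (hψ : Poly ψ) :
    IsFP A (fun x => ψ (x, (ℓ x).map f)) := by
  obtain ⟨G, hG, hGe⟩ := exists_map hf
  have h1 := IsFP.seq (A := A) (F := fun x => x) (G := G) (IsFP.of_poly Poly.id) hG
    (φ := fun p => enc (ℓ p.1))
    (ψ := fun p => ψ (p.1, dec' p.2.2)) ((poly_enc hℓ).comp (Poly.fst Poly.id))
    (hψ.comp (Poly.pair (Poly.fst Poly.id) (poly_dec'.comp (Poly.snd (Poly.snd Poly.id)))))
  have h2 : (fun x => ψ (x, (ℓ x).map f)) =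
      fun x => (fun p : List Bool × List Bool × List Bool => ψ (p.1, dec' p.2.2))
        (x, x, G ((fun p : List Bool × List Bool => enc (ℓ p.1)) (x, x))) := by
    funext x
    simp only [hGe, dec'_enc]
  rw [h2]
  exact h1

/-- A verifier which does not accept any witness that is too long. -/
theorem exists_strict {A : Oracle} {L : Set (List Bool)} (h : IsNP A L) :
    ∃ (V : List Bool → List Bool) (p : Polynomial ℕ), IsFP A V ∧
      (∀ w x, V (pairBits w x) = [true] → w.length ≤ p.eval x.length) ∧
      ∀ x, x ∈ L ↔ ∃ w : List Bool, V (pairBits w x) = [true] := by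
  obtain ⟨V, p, hV, hL⟩ := h
  have hlen : Poly (fun q : List Bool × List Bool × List Bool =>
      decide ((unpair q.1).1.length ≤ p.eval (unpair q.1).2.length)) :=
    Poly.decide_le (Poly.length (Poly.fst (poly_unpair.comp (Poly.fst Poly.id))))
      (UPoly.toPoly (UPoly.eval (UPoly.length
        (Poly.snd (poly_unpair.comp (Poly.fst Poly.id)))) p))
  have h1 := IsFP.seq (A := A) (F := fun x => x) (G := V) (IsFP.of_poly Poly.id) hV
    (φ := fun q => q.1)
    (ψ := fun q => if (unpair q.1).1.length ≤ p.eval (unpair q.1).2.length then q.2.2 else [])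
    (Poly.fst Poly.id)
    (Poly.ite hlen (Poly.snd (Poly.snd Poly.id)) (NPC.Poly.const _))
  refine ⟨_, p, h1, ?_, ?_⟩
  · intro w x hw
    simp only [unpair_pairBits] at hw
    by_contra hcon
    rw [if_neg hcon] at hw
    exact absurd hw (by simp)
  · intro x
    rw [hL x]
    constructor
    · rintro ⟨w, hw, hv⟩
      refine ⟨w, ?_⟩
      simp only [unpair_pairBits]
      rw [if_pos hw]
      exact hv
    · rintro ⟨w, hw⟩
      simp only [unpair_pairBits] at hw
      by_cases hcon : w.length ≤ p.eval x.length
      · rw [if_pos hcon] at hw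
        exact ⟨w, hcon, hw⟩
      · rw [if_neg hcon] at hw
        exact absurd hw (by simp)

end Pool.Agent.J4H95.TV
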