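import Pool.Agent.J4H95.TV.Code

/-!
# A fast growing chain of indices, and the subspaces built on it
-/

namespace Pool.Agent.J4H95.TV

open Pool.Agent.NPC Pool.Agent.H620R2.Gauge

/-- the growth function -/
def gr (i : ℕ) : ℕ := 2 ^ ((i + 1) * (i + 1))

theorem lt_gr (i : ℕ) : i < gr i := by
  have h1 : i < 2 ^ i := Nat.lt_two_pow_self
  have h2 : 2 ^ i ≤ gr i := Nat.pow_le_pow_right (by norm_num) (by nlinarith)
  omega

variable {F : Type} [Field F] [Fintype F] {φ : F ≃ Fin (Fintype.card F)}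
  {M : Submodule F (ℕ →₀ F)}

open Classical in
/-- the least free index greater than `c` -/
noncomputable def nxt (hM : ¬ Module.Finite F ((ℕ →₀ F) ⧸ M)) (c : ℕ) : ℕ :=
  Nat.find (exists_free hM c)

theorem lt_nxt (hM : ¬ Module.Finite F ((ℕ →₀ F) ⧸ M)) (c : ℕ) : c < nxt hM c := by
  classical
  exact (Nat.find_spec (exists_free hM c)).1

theorem free_nxt (hM : ¬ Module.Finite F ((ℕ →₀ F) ⧸ M)) (c : ℕ) : Free M (nxt hM c) := by
  classical
  exact (Nat.find_spec (exists_free hM c)).2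

theorem not_free_of_lt_nxt (hM : ¬ Module.Finite F ((ℕ →₀ F) ⧸ M)) {c j : ℕ} (h : c < j)
    (h' : j < nxt hM c) : ¬ Free M j := by
  classical
  intro hf
  exact Nat.find_min (exists_free hM c) h' ⟨h, hf⟩

theorem nxt_unique (hM : ¬ Module.Finite F ((ℕ →₀ F) ⧸ M)) {c i : ℕ} (h : c < i)
    (hi : Free M i) (h' : ∀ j, c < j → j < i → ¬ Free M j) : i = nxt hM c := by
  rcases lt_trichotomy i (nxt hM c) with h1 | h1 | h1
  · exact absurd hi (not_free_of_lt_nxt hM h h1)
  · exact h1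
  · exact absurd (free_nxt hM c) (h' _ (lt_nxt hM c) h1)

/-- the chain -/
noncomputable def cc (hM : ¬ Module.Finite F ((ℕ →₀ F) ⧸ M)) : ℕ → ℕ
  | 0 => 0
  | t + 1 => gr (nxt hM (cc hM t))

/-- the free indices of the chain -/
noncomputable def ii (hM : ¬ Module.Finite F ((ℕ →₀ F) ⧸ M)) (t : ℕ) : ℕ := nxt hM (cc hM t)

theorem cc_lt_ii (hM : ¬ Module.Finite F ((ℕ →₀ F) ⧸ M)) (t : ℕ) : cc hM t < ii hM t :=
  lt_nxt hM _

theorem ii_lt_cc (hM : ¬ Module.Finite F ((ℕ →₀ F) ⧸ M)) (t : ℕ) : ii hM t < cc hM (t + 1) :=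
  lt_gr _

theorem cc_succ (hM : ¬ Module.Finite F ((ℕ →₀ F) ⧸ M)) (t : ℕ) :
    cc hM (t + 1) = gr (ii hM t) := rfl

theorem cc_strictMono (hM : ¬ Module.Finite F ((ℕ →₀ F) ⧸ M)) : StrictMono (cc hM) :=
  strictMono_nat_of_lt_succ fun t => (cc_lt_ii hM t).trans (ii_lt_cc hM t)

theorem ii_strictMono (hM : ¬ Module.Finite F ((ℕ →₀ F) ⧸ M)) : StrictMono (ii hM) :=
  strictMono_nat_of_lt_succ fun t => (ii_lt_cc hM t).trans (cc_lt_ii hM (t + 1))

theorem lt_ii (hM : ¬ Module.Finite F ((ℕ →₀ F) ⧸ M)) (t : ℕ) : t < ii hM t :=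
  lt_of_le_of_lt ((cc_strictMono hM).id_le t) (cc_lt_ii hM t)

/-- `e_z + r` is in `M` for some `r` supported below `i` -/
def EE (φ : F ≃ Fin (Fintype.card F)) (M : Submodule F (ℕ →₀ F)) (z i : ℕ) : Prop :=
  ∃ m, Memb φ M m ∧ (φ 1 : ℕ) * Fintype.card F ^ z ≤ m ∧
    m < (φ 1 : ℕ) * Fintype.card F ^ z + Fintype.card F ^ i

theorem disjoint_single {z i : ℕ} (hiz : i ≤ z) {r : ℕ →₀ F} (hr : Below i r) (a : F) :
    Disjoint (Finsupp.single z a).support r.support := by
  rw [Finset.disjoint_left]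
  intro j hj hj'
  have h1 : j = z := by
    by_contra hne
    rw [Finsupp.mem_support_iff, Finsupp.single_apply, if_neg (Ne.symm hne)] at hj
    exact hj rfl
  rw [h1, Finsupp.mem_support_iff] at hj'
  exact hj' (hr z hiz)

theorem EE_iff (hφ : (φ 0 : ℕ) = 0) {z i : ℕ} (hiz : i ≤ z) :
    EE φ M z i ↔ ∃ r : ℕ →₀ F, Below i r ∧ Finsupp.single z (1 : F) + r ∈ M := by
  constructor
  · rintro ⟨m, ⟨v, hv, hm⟩, h1, h2⟩
    obtain ⟨r, hr, hc⟩ := exists_code hφ i (m - (φ 1 : ℕ) * Fintype.card F ^ z) (by omega)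
    refine ⟨r, hr, ?_⟩
    have h3 : code φ (Finsupp.single z (1 : F) + r) = code φ v := by
      rw [code_add _ _ (disjoint_single hiz hr 1), code_single hφ, hc, hm]
      omega
    rwa [code_inj hφ h3]
  · rintro ⟨r, hr, h⟩
    refine ⟨_, ⟨_, h, rfl⟩, ?_, ?_⟩
    · rw [code_add _ _ (disjoint_single hiz hr 1), code_single hφ]
      omega
    · rw [code_add _ _ (disjoint_single hiz hr 1), code_single hφ]
      have := code_lt hφ i r hr
      omega

/-- the basis vectors -/
noncomputable def bb (hM : ¬ Module.Finite F ((ℕ →₀ F) ⧸ M)) (δ : Bool) (t : ℕ) : ℕ →₀ F :=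
  Finsupp.single (cc hM (t + 1)) 1 + if δ = true then Finsupp.single (ii hM t) 1 else 0

/-- the subspace -/
noncomputable def WW (hM : ¬ Module.Finite F ((ℕ →₀ F) ⧸ M)) (δ : Bool) (G : Set ℕ) :
    Submodule F (ℕ →₀ F) := Submodule.span F (bb hM δ '' G)

theorem mem_WW {hM : ¬ Module.Finite F ((ℕ →₀ F) ⧸ M)} {δ : Bool} {G : Set ℕ}
    {w : ℕ →₀ F} (hw : w ∈ WW hM δ G) : ∃ (T : ℕ) (k : ℕ → F), (∀ t, k t ≠ 0 → t ∈ G) ∧
      w = ∑ t ∈ Finset.range T, k t • bb hM δ t := by
  classical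
  rw [WW, Finsupp.mem_span_image_iff_linearCombination] at hw
  obtain ⟨k, hk, rfl⟩ := hw
  refine ⟨k.support.sup id + 1, k, ?_, ?_⟩
  · intro t ht
    exact (Finsupp.mem_supported F k).mp hk (Finsupp.mem_support_iff.mpr ht)
  · rw [Finsupp.linearCombination_apply, Finsupp.sum]
    apply Finset.sum_subset
    · intro t ht
      rw [Finset.mem_range]
      have := Finset.le_sup (f := id) ht
      simp only [id] at this
      omega
    · intro t _ ht
      rw [Finsupp.notMem_support_iff.mp ht, zero_smul]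

theorem sum_mem_WW {hM : ¬ Module.Finite F ((ℕ →₀ F) ⧸ M)} {δ : Bool} {G : Set ℕ} (T : ℕ)
    (k : ℕ → F) (hk : ∀ t < T, k t ≠ 0 → t ∈ G) :
    ∑ t ∈ Finset.range T, k t • bb hM δ t ∈ WW hM δ G := by
  apply Submodule.sum_mem
  intro t ht
  rw [Finset.mem_range] at ht
  by_cases h : k t = 0
  · rw [h, zero_smul]; exact Submodule.zero_mem _
  · exact Submodule.smul_mem _ _ (Submodule.subset_span ⟨t, hk t ht h, rfl⟩)

/-- reduction to a combination with a nonzero last coefficient -/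
theorem exists_top {hM : ¬ Module.Finite F ((ℕ →₀ F) ⧸ M)} {δ : Bool} (k : ℕ → F) :
    ∀ T : ℕ, ∑ t ∈ Finset.range T, k t • bb hM δ t ≠ 0 →
    ∃ S, S < T ∧ k S ≠ 0 ∧ ∑ t ∈ Finset.range T, k t • bb hM δ t =
      ∑ t ∈ Finset.range (S + 1), k t • bb hM δ t := by
  intro T
  induction T with
  | zero => intro h; simp at h
  | succ T ih =>
      intro h
      by_cases hT : k T = 0
      · have e : ∑ t ∈ Finset.range (T + 1), k t • bb hM δ t =
            ∑ t ∈ Finset.range T, k t • bb hM δ t := by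
          rw [Finset.sum_range_succ, hT, zero_smul, add_zero]
        rw [e] at h ⊢
        obtain ⟨S, h1, h2, h3⟩ := ih h
        exact ⟨S, by omega, h2, h3⟩
      · exact ⟨T, by omega, hT, rfl⟩

theorem bb_below (hM : ¬ Module.Finite F ((ℕ →₀ F) ⧸ M)) (δ : Bool) (t : ℕ) :
    Below (cc hM (t + 1) + 1) (bb hM δ t) := by
  intro j hj
  have h1 := ii_lt_cc hM t
  unfold bb
  rw [Finsupp.add_apply, Finsupp.single_apply, if_neg (by omega), zero_add]
  split
  · rw [Finsupp.single_apply, if_neg (by omega)]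
  · rfl

theorem sum_below (hM : ¬ Module.Finite F ((ℕ →₀ F) ⧸ M)) (δ : Bool) (k : ℕ → F) (T : ℕ) :
    Below (cc hM T + 1) (∑ t ∈ Finset.range T, k t • bb hM δ t) := by
  intro j hj
  rw [Finsupp.finsetSum_apply]
  apply Finset.sum_eq_zero
  intro t ht
  rw [Finset.mem_range] at ht
  have h1 : cc hM (t + 1) ≤ cc hM T := (cc_strictMono hM).monotone ht
  rw [Finsupp.smul_apply, bb_below hM δ t j (by omega), smul_zero]

/-- The subspace has no nonzero element in common with `M`, first case. -/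
theorem inter_true (hφ : (φ 0 : ℕ) = 0) (hM : ¬ Module.Finite F ((ℕ →₀ F) ⧸ M)) (G : Set ℕ)
    (hG : ∀ t ∈ G, EE φ M (cc hM (t + 1)) (ii hM t)) (w : ℕ →₀ F) (hw : w ∈ WW hM true G)
    (hwM : w ∈ M) : w = 0 := by
  classical
  by_contra hne
  obtain ⟨T, k, hk, rfl⟩ := mem_WW hw
  obtain ⟨S, _, hS, hsum⟩ := exists_top k T hne
  rw [hsum] at hwM
  have h1 : ∀ t, ∃ r : ℕ →₀ F, k t ≠ 0 → (Below (ii hM t) r ∧
      Finsupp.single (cc hM (t + 1)) (1 : F) + r ∈ M) := by
    intro t
    by_cases ht : k t = 0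
    · exact ⟨0, fun h => absurd ht h⟩
    · obtain ⟨r, hr, hm⟩ := (EE_iff hφ (ii_lt_cc hM t).le).mp (hG t (hk t ht))
      exact ⟨r, fun _ => ⟨hr, hm⟩⟩
  choose r hr using h1
  let x : ℕ →₀ F := ∑ t ∈ Finset.range (S + 1), k t • bb hM true t -
    ∑ t ∈ Finset.range (S + 1), k t • (Finsupp.single (cc hM (t + 1)) (1 : F) + r t)
  have hx : x ∈ M := by
    refine M.sub_mem hwM (M.sum_mem fun t _ => ?_)
    by_cases h0 : k t = 0
    · rw [h0, zero_smul]; exact M.zero_mem
    · exact M.smul_mem _ (hr t h0).2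
  have hval : ∀ j, x j = ∑ t ∈ Finset.range (S + 1),
      k t * ((Finsupp.single (ii hM t) (1 : F)) j - r t j) := by
    intro j
    simp only [x, Finsupp.sub_apply, Finsupp.finsetSum_apply, ← Finset.sum_sub_distrib]
    apply Finset.sum_congr rfl
    intro t _
    simp only [Finsupp.smul_apply, bb, if_true, Finsupp.add_apply, smul_eq_mul]
    ring
  have hzero : ∀ t j, k t ≠ 0 → ii hM t ≤ j → r t j = 0 := fun t j ht hj => (hr t ht).1 j hj
  apply free_nxt hM (cc hM S) x hx
  constructor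
  · rw [hval, Finset.sum_range_succ, Finset.sum_eq_zero, zero_add]
    · have e1 : r S (nxt hM (cc hM S)) = 0 := hzero S _ hS le_rfl
      rw [e1, sub_zero]
      have e2 : (Finsupp.single (ii hM S) (1 : F)) (nxt hM (cc hM S)) = 1 :=
        Finsupp.single_eq_same
      rw [e2, mul_one]
      exact hS
    · intro t ht
      rw [Finset.mem_range] at ht
      by_cases h0 : k t = 0
      · rw [h0, zero_mul]
      · have h2 : ii hM t < nxt hM (cc hM S) := ii_strictMono hM ht
        rw [hzero t _ h0 h2.le, Finsupp.single_apply, if_neg (by omega), sub_zero, mul_zero]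
  · intro j hj
    rw [hval]
    apply Finset.sum_eq_zero
    intro t ht
    rw [Finset.mem_range] at ht
    by_cases h0 : k t = 0
    · rw [h0, zero_mul]
    · have h2 : ii hM t ≤ nxt hM (cc hM S) := (ii_strictMono hM).monotone (by omega : t ≤ S)
      rw [hzero t _ h0 (by omega), Finsupp.single_apply, if_neg (by omega), sub_zero, mul_zero]

/-- The subspace has no nonzero element in common with `M`, second case. -/
theorem inter_false (hφ : (φ 0 : ℕ) = 0) (hM : ¬ Module.Finite F ((ℕ →₀ F) ⧸ M)) (G : Set ℕ)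
    (hG : ∀ t ∈ G, ¬ EE φ M (cc hM (t + 1)) (ii hM t)) (w : ℕ →₀ F) (hw : w ∈ WW hM false G)
    (hwM : w ∈ M) : w = 0 := by
  by_contra hne
  obtain ⟨T, k, hk, rfl⟩ := mem_WW hw
  obtain ⟨S, _, hS, hsum⟩ := exists_top k T hne
  rw [hsum] at hwM
  apply hG S (hk S hS)
  rw [EE_iff hφ (ii_lt_cc hM S).le]
  refine ⟨(k S)⁻¹ • ∑ t ∈ Finset.range S, k t • bb hM false t, ?_, ?_⟩
  · intro j hj
    have h1 := cc_lt_ii hM S
    rw [Finsupp.smul_apply, sum_below hM false k S j (by omega), smul_zero]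
  · have h1 := M.smul_mem (k S)⁻¹ hwM
    rw [Finset.sum_range_succ, smul_add, smul_smul, inv_mul_cancel₀ hS, one_smul, add_comm] at h1
    simpa [bb] using h1

/-- The subspace is infinite. -/
theorem WW_infinite (hM : ¬ Module.Finite F ((ℕ →₀ F) ⧸ M)) (δ : Bool) (G : Set ℕ)
    (hG : G.Infinite) : (WW hM δ G : Set (ℕ →₀ F)).Infinite := by
  have h1 : (bb hM δ '' G).Infinite := by
    apply hG.image
    intro s _ t _ h
    by_contra hne
    rcases lt_or_gt_of_ne hne with hst | hst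
    · have h2 := DFunLike.congr_fun h (cc hM (t + 1))
      have h3 : cc hM (s + 1) < cc hM (t + 1) := cc_strictMono hM (by omega)
      rw [bb_below hM δ s _ (by omega)] at h2
      have h4 := ii_lt_cc hM t
      have h5 : bb hM δ t (cc hM (t + 1)) = 1 := by
        unfold bb
        rw [Finsupp.add_apply, Finsupp.single_eq_same]
        split
        · rw [Finsupp.single_apply, if_neg (by omega), add_zero]
        · simp
      rw [h5] at h2
      exact one_ne_zero h2.symm
    · have h2 := DFunLike.congr_fun h (cc hM (s + 1))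
      have h3 : cc hM (t + 1) < cc hM (s + 1) := cc_strictMono hM (by omega)
      rw [bb_below hM δ t _ (by omega)] at h2
      have h4 := ii_lt_cc hM s
      have h5 : bb hM δ s (cc hM (s + 1)) = 1 := by
        unfold bb
        rw [Finsupp.add_apply, Finsupp.single_eq_same]
        split
        · rw [Finsupp.single_apply, if_neg (by omega), add_zero]
        · simp
      rw [h5] at h2
      exact one_ne_zero h2
  exact h1.mono Submodule.subset_span

/-- The weight of the digit number `t` in the codes of the elements of the subspace. -/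
noncomputable def wt (hM : ¬ Module.Finite F ((ℕ →₀ F) ⧸ M)) (δ : Bool) (t : ℕ) : ℕ :=
  Fintype.card F ^ cc hM (t + 1) + if δ = true then Fintype.card F ^ ii hM t else 0

theorem code_smul_bb (hφ : (φ 0 : ℕ) = 0) (hM : ¬ Module.Finite F ((ℕ →₀ F) ⧸ M)) (δ : Bool)
    (t : ℕ) (a : F) : code φ (a • bb hM δ t) = (φ a : ℕ) * wt hM δ t := by
  unfold bb wt
  cases δ with
  | false =>
      simp only [Bool.false_eq_true, if_false, add_zero, Finsupp.smul_single, smul_eq_mul, mul_one]
      rw [code_single hφ]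
  | true =>
      simp only [if_true, smul_add, Finsupp.smul_single, smul_eq_mul, mul_one]
      rw [code_add _ _ (disjoint_single (i := ii hM t + 1) (ii_lt_cc hM t) (fun j hj => by
        rw [Finsupp.single_apply, if_neg (by omega)]) a), code_single hφ, code_single hφ]
      ring

theorem code_sum_bb (hφ : (φ 0 : ℕ) = 0) (hM : ¬ Module.Finite F ((ℕ →₀ F) ⧸ M)) (δ : Bool)
    (k : ℕ → F) (T : ℕ) : code φ (∑ t ∈ Finset.range T, k t • bb hM δ t) =
      ∑ t ∈ Finset.range T, (φ (k t) : ℕ) * wt hM δ t := by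
  classical
  induction T with
  | zero => simp [code]
  | succ T ih =>
      rw [Finset.sum_range_succ, Finset.sum_range_succ, code_add, ih, code_smul_bb hφ]
      rw [Finset.disjoint_left]
      intro j hj hj'
      have h1 : j < cc hM T + 1 := by
        by_contra h
        exact (Finsupp.mem_support_iff.mp hj) (sum_below hM δ k T j (by omega))
      have h2 := cc_lt_ii hM T
      have h3 := ii_lt_cc hM T
      apply Finsupp.mem_support_iff.mp hj'
      unfold bb
      rw [Finsupp.smul_apply, Finsupp.add_apply, Finsupp.single_apply, if_neg (by omega), zero_add]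
      split
      · rw [Finsupp.single_apply, if_neg (by omega), smul_zero]
      · simp

/-- The codes of the elements of the subspace. -/
theorem memb_WW (hφ : (φ 0 : ℕ) = 0) (hM : ¬ Module.Finite F ((ℕ →₀ F) ⧸ M)) (δ : Bool)
    (G : Set ℕ) (N : ℕ) : Memb φ (WW hM δ G) N ↔ ∃ (T : ℕ) (a : ℕ → ℕ),
      (∀ t, a t < Fintype.card F) ∧ (∀ t < T, a t ≠ 0 → t ∈ G) ∧
      N = ∑ t ∈ Finset.range T, a t * wt hM δ t := by
  constructor
  · rintro ⟨w, hw, rfl⟩
    obtain ⟨T, k, hk, rfl⟩ := mem_WW hw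
    refine ⟨T, fun t => (φ (k t) : ℕ), fun t => (φ (k t)).2, ?_, code_sum_bb hφ hM δ k T⟩
    intro t _ ht
    apply hk
    intro h
    exact ht (by simp only [h, hφ])
  · rintro ⟨T, a, ha, hG, rfl⟩
    refine ⟨∑ t ∈ Finset.range T, (φ.symm ⟨a t, ha t⟩) • bb hM δ t, ?_, ?_⟩
    · apply sum_mem_WW
      intro t ht hne
      apply hG t ht
      intro h0
      apply hne
      rw [Equiv.symm_apply_eq]
      exact Fin.ext (by rw [hφ]; exact h0)
    · rw [code_sum_bb hφ]
      simp

end Pool.Agent.J4H95.TV
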