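import Pool.Agent.J4H95.TV.Defs

/-!
# The codes of vectors
-/

namespace Pool.Agent.J4H95.TV

open Pool.Agent.NPC Pool.Agent.H620R2.Gauge

variable {F : Type} [Field F] [Fintype F] {φ : F ≃ Fin (Fintype.card F)}

/-- vectors supported below `n` -/
def Below (n : ℕ) (v : ℕ →₀ F) : Prop := ∀ j, n ≤ j → v j = 0

/-- `n` is the greatest index of a nonzero coordinate of `v` -/
def Lead (v : ℕ →₀ F) (n : ℕ) : Prop := v n ≠ 0 ∧ ∀ j, n < j → v j = 0

theorem card_pos' : 0 < Fintype.card F := Fintype.card_pos

theorem one_lt_card' : 1 < Fintype.card F := Fintype.one_lt_card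

theorem code_add (u v : ℕ →₀ F) (h : Disjoint u.support v.support) :
    code φ (u + v) = code φ u + code φ v :=
  Finsupp.sum_add_index_of_disjoint h _

theorem code_single (hφ : (φ 0 : ℕ) = 0) (i : ℕ) (a : F) :
    code φ (Finsupp.single i a) = (φ a : ℕ) * Fintype.card F ^ i :=
  Finsupp.sum_single_index (by rw [hφ, zero_mul])

theorem digit_pos (hφ : (φ 0 : ℕ) = 0) {a : F} (ha : a ≠ 0) : 0 < (φ a : ℕ) := by
  rcases Nat.eq_zero_or_pos (φ a : ℕ) with h | h
  · exfalso
    apply ha
    apply φ.injective
    exact Fin.ext (by rw [h, hφ])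
  · exact h

theorem code_erase (hφ : (φ 0 : ℕ) = 0) (v : ℕ →₀ F) (n : ℕ) :
    code φ v = code φ (v.erase n) + (φ (v n) : ℕ) * Fintype.card F ^ n := by
  classical
  have h := code_add (φ := φ) (v.erase n) (Finsupp.single n (v n)) (by
    rw [Finset.disjoint_left]
    intro j hj hj'
    have h1 : j = n := by
      by_contra hne
      rw [Finsupp.mem_support_iff, Finsupp.single_apply, if_neg (Ne.symm hne)] at hj'
      exact hj' rfl
    rw [h1, Finsupp.mem_support_iff] at hj
    exact hj Finsupp.erase_same)
  rw [Finsupp.erase_add_single, code_single hφ] at h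
  exact h

theorem below_erase {n : ℕ} {v : ℕ →₀ F} (h : Below (n + 1) v) : Below n (v.erase n) := by
  intro j hj
  by_cases hjn : j = n
  · rw [hjn, Finsupp.erase_same]
  · rw [Finsupp.erase_ne hjn]
    exact h j (by omega)

theorem code_lt (hφ : (φ 0 : ℕ) = 0) (n : ℕ) : ∀ v : ℕ →₀ F, Below n v →
    code φ v < Fintype.card F ^ n := by
  induction n with
  | zero =>
      intro v hv
      have : v = 0 := Finsupp.ext fun j => hv j (Nat.zero_le _)
      rw [this]
      simp [code]
  | succ n ih =>
      intro v hv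
      rw [code_erase hφ v n]
      have h1 := ih _ (below_erase hv)
      have h2 : (φ (v n) : ℕ) + 1 ≤ Fintype.card F := (φ (v n)).2
      calc code φ (v.erase n) + (φ (v n) : ℕ) * Fintype.card F ^ n
          < Fintype.card F ^ n + (φ (v n) : ℕ) * Fintype.card F ^ n := by omega
        _ = ((φ (v n) : ℕ) + 1) * Fintype.card F ^ n := by ring
        _ ≤ Fintype.card F * Fintype.card F ^ n := Nat.mul_le_mul_right _ h2
        _ = Fintype.card F ^ (n + 1) := by rw [pow_succ]; ring

theorem code_ge (hφ : (φ 0 : ℕ) = 0) {n : ℕ} {v : ℕ →₀ F} (hv : v n ≠ 0) :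
    Fintype.card F ^ n ≤ code φ v := by
  rw [code_erase hφ v n]
  have h := digit_pos hφ hv
  calc Fintype.card F ^ n = 1 * Fintype.card F ^ n := (one_mul _).symm
    _ ≤ (φ (v n) : ℕ) * Fintype.card F ^ n := Nat.mul_le_mul_right _ h
    _ ≤ _ := Nat.le_add_left _ _

theorem exists_code (hφ : (φ 0 : ℕ) = 0) (n : ℕ) : ∀ m : ℕ, m < Fintype.card F ^ n →
    ∃ v : ℕ →₀ F, Below n v ∧ code φ v = m := by
  induction n with
  | zero =>
      intro m hm
      refine ⟨0, fun _ _ => rfl, ?_⟩
      have : m = 0 := by simpa using hm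
      rw [this]
      simp [code]
  | succ n ih =>
      intro m hm
      have hpos : 0 < Fintype.card F ^ n := pow_pos card_pos' n
      obtain ⟨v, hv, hc⟩ := ih (m % Fintype.card F ^ n) (Nat.mod_lt _ hpos)
      have ha : m / Fintype.card F ^ n < Fintype.card F := by
        rw [Nat.div_lt_iff_lt_mul hpos]
        rw [pow_succ] at hm
        rw [mul_comm]
        exact hm
      refine ⟨v + Finsupp.single n (φ.symm ⟨_, ha⟩), ?_, ?_⟩
      · intro j hj
        rw [Finsupp.add_apply, hv j (by omega), Finsupp.single_apply, if_neg (by omega),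
          add_zero]
      · rw [code_add, code_single hφ, hc, Equiv.apply_symm_apply]
        · exact Nat.mod_add_div' m _
        · rw [Finset.disjoint_left]
          intro j hj hj'
          have h1 : j = n := by
            by_contra hne
            rw [Finsupp.mem_support_iff, Finsupp.single_apply, if_neg (Ne.symm hne)] at hj'
            exact hj' rfl
          rw [h1, Finsupp.mem_support_iff] at hj
          exact hj (hv n le_rfl)

theorem code_inj_below (hφ : (φ 0 : ℕ) = 0) (n : ℕ) : ∀ u v : ℕ →₀ F, Below n u → Below n v →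
    code φ u = code φ v → u = v := by
  induction n with
  | zero =>
      intro u v hu hv _
      exact Finsupp.ext fun j => by rw [hu j (Nat.zero_le _), hv j (Nat.zero_le _)]
  | succ n ih =>
      intro u v hu hv h
      rw [code_erase hφ u n, code_erase hφ v n] at h
      have hpos : 0 < Fintype.card F ^ n := pow_pos card_pos' n
      have h1 := code_lt hφ n _ (below_erase hu)
      have h2 := code_lt hφ n _ (below_erase hv)
      have h3 := congrArg (fun m => m / Fintype.card F ^ n) h
      simp only [Nat.add_mul_div_right _ _ hpos, Nat.div_eq_of_lt h1, Nat.div_eq_of_lt h2,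
        zero_add] at h3
      have h4 : u n = v n := φ.injective (Fin.ext h3)
      have h5 : code φ (u.erase n) = code φ (v.erase n) := by
        rw [h3] at h
        omega
      have h6 := ih _ _ (below_erase hu) (below_erase hv) h5
      have h7 : u.erase n + Finsupp.single n (u n) = v.erase n + Finsupp.single n (v n) := by
        rw [h4, h6]
      simpa only [Finsupp.erase_add_single] using h7

theorem exists_below (v : ℕ →₀ F) : ∃ n, Below n v := by
  refine ⟨v.support.sup id + 1, fun j hj => ?_⟩
  by_contra h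
  have := Finset.le_sup (f := id) (Finsupp.mem_support_iff.mpr h)
  simp only [id] at this
  omega

theorem Below.mono {m n : ℕ} {v : ℕ →₀ F} (h : Below m v) (hmn : m ≤ n) : Below n v :=
  fun j hj => h j (hmn.trans hj)

theorem code_inj (hφ : (φ 0 : ℕ) = 0) {u v : ℕ →₀ F} (h : code φ u = code φ v) : u = v := by
  obtain ⟨m, hm⟩ := exists_below u
  obtain ⟨n, hn⟩ := exists_below v
  exact code_inj_below hφ (max m n) u v (hm.mono (le_max_left _ _)) (hn.mono (le_max_right _ _)) h

theorem exists_lead {v : ℕ →₀ F} (hv : v ≠ 0) : ∃ n, Lead v n := by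
  classical
  have hne : v.support.Nonempty := Finsupp.support_nonempty_iff.mpr hv
  refine ⟨v.support.max' hne, Finsupp.mem_support_iff.mp (v.support.max'_mem hne), ?_⟩
  intro j hj
  by_contra h
  have := v.support.le_max' j (Finsupp.mem_support_iff.mpr h)
  omega

theorem lead_iff (hφ : (φ 0 : ℕ) = 0) (v : ℕ →₀ F) (n : ℕ) :
    Lead v n ↔ Fintype.card F ^ n ≤ code φ v ∧ code φ v < Fintype.card F ^ (n + 1) := by
  have key : ∀ m, Lead v m → Fintype.card F ^ m ≤ code φ v ∧
      code φ v < Fintype.card F ^ (m + 1) := fun m hm =>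
    ⟨code_ge hφ hm.1, code_lt hφ (m + 1) v fun j hj => hm.2 j (by omega)⟩
  constructor
  · exact key n
  · rintro ⟨h1, h2⟩
    have hv : v ≠ 0 := by
      rintro rfl
      have : code φ (0 : ℕ →₀ F) = 0 := by simp [code]
      rw [this] at h1
      exact absurd h1 (by have := pow_pos (card_pos' (F := F)) n; omega)
    obtain ⟨m, hm⟩ := exists_lead hv
    obtain ⟨h3, h4⟩ := key m hm
    have h5 : n < m + 1 := (Nat.pow_lt_pow_iff_right one_lt_card').mp (lt_of_le_of_lt h1 h4)
    have h6 : m < n + 1 := (Nat.pow_lt_pow_iff_right one_lt_card').mp (lt_of_le_of_lt h3 h2)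
    have : m = n := by omega
    rwa [this] at hm

/-- `m` is the code of an element of `M`. -/
def Memb (φ : F ≃ Fin (Fintype.card F)) (M : Submodule F (ℕ →₀ F)) (m : ℕ) : Prop :=
  ∃ v ∈ M, code φ v = m

theorem mem_tallyLang {M : Submodule F (ℕ →₀ F)} {m : ℕ} :
    List.replicate m true ∈ tallyLang φ M ↔ Memb φ M m := by
  constructor
  · rintro ⟨v, hv, h⟩
    refine ⟨v, hv, ?_⟩
    have := congrArg List.length h
    simpa using this.symm
  · rintro ⟨v, hv, rfl⟩
    exact ⟨v, hv, rfl⟩

/-- no element of `M` has its leading coordinate at `n` -/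
def Free (M : Submodule F (ℕ →₀ F)) (n : ℕ) : Prop := ∀ v ∈ M, ¬ Lead v n

theorem not_free_iff (hφ : (φ 0 : ℕ) = 0) (M : Submodule F (ℕ →₀ F)) (n : ℕ) :
    ¬ Free M n ↔ ∃ m, Memb φ M m ∧ Fintype.card F ^ n ≤ m ∧ m < Fintype.card F ^ (n + 1) := by
  unfold Free
  push Not
  constructor
  · rintro ⟨v, hv, hl⟩
    exact ⟨_, ⟨v, hv, rfl⟩, (lead_iff hφ v n).mp hl⟩
  · rintro ⟨m, ⟨v, hv, rfl⟩, h⟩
    exact ⟨v, hv, (lead_iff hφ v n).mpr h⟩

/-- If the quotient is infinite-dimensional then there are arbitrarily large free indices. -/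
theorem exists_free {M : Submodule F (ℕ →₀ F)} (hM : ¬ Module.Finite F ((ℕ →₀ F) ⧸ M))
    (n : ℕ) : ∃ i, n < i ∧ Free M i := by
  by_contra hcon
  push Not at hcon
  apply hM
  let S : Submodule F (ℕ →₀ F) := Submodule.span F
    ((fun i => Finsupp.single i (1 : F)) '' (Set.Iio (n + 1)))
  have key : ∀ m, ∀ v : ℕ →₀ F, Below m v → v ∈ M ⊔ S := by
    intro m
    induction m with
    | zero =>
        intro v hv
        have : v = 0 := Finsupp.ext fun j => hv j (Nat.zero_le _)
        rw [this]
        exact Submodule.zero_mem _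
    | succ m ih =>
        intro v hv
        by_cases hm : m < n + 1
        · have h1 : v = v.erase m + v m • Finsupp.single m (1 : F) := by
            rw [Finsupp.smul_single, smul_eq_mul, mul_one, Finsupp.erase_add_single]
          rw [h1]
          refine Submodule.add_mem _ (ih _ (below_erase hv)) ?_
          refine Submodule.smul_mem _ _ (Submodule.mem_sup_right ?_)
          exact Submodule.subset_span ⟨m, hm, rfl⟩
        · have h1 := hcon m (by omega)
          unfold Free at h1
          push Not at h1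
          obtain ⟨u, hu, hl⟩ := h1
          have h2 : v = (v - (v m / u m) • u) + (v m / u m) • u := by abel
          rw [h2]
          refine Submodule.add_mem _ (ih _ ?_) ?_
          · intro j hj
            rcases Nat.eq_or_lt_of_le hj with hj | hj
            · subst hj
              rw [Finsupp.sub_apply, Finsupp.smul_apply, smul_eq_mul, div_mul_cancel₀ _ hl.1,
                sub_self]
            · rw [Finsupp.sub_apply, Finsupp.smul_apply, hv j (by omega), hl.2 j hj, smul_zero,
                sub_zero]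
          · exact Submodule.smul_mem _ _ (Submodule.mem_sup_left hu)
  have htop : M ⊔ S = ⊤ := by
    rw [eq_top_iff]
    intro v _
    obtain ⟨m, hm⟩ := exists_below v
    exact key m v hm
  have hmap : S.map M.mkQ = ⊤ := by
    rw [eq_top_iff]
    intro w _
    obtain ⟨v, rfl⟩ := Submodule.mkQ_surjective M w
    have hv : v ∈ M ⊔ S := by rw [htop]; trivial
    obtain ⟨a, ha, b, hb, hab⟩ := Submodule.mem_sup.mp hv
    refine ⟨b, hb, ?_⟩
    rw [← hab, map_add, (Submodule.Quotient.mk_eq_zero M).mpr ha |> (fun h => (show M.mkQ a = 0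
      from h)), zero_add]
  have hfg : S.FG := Submodule.fg_span ((Set.finite_Iio (n + 1)).image _)
  refine ⟨?_⟩
  rw [← hmap]
  exact hfg.map _

end Pool.Agent.J4H95.TV
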