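import Pool.Agent.J4H95.TV.Table

/-!
# Correctness of the test
-/

namespace Pool.Agent.J4H95.TV

open Pool.Agent.NPC Pool.Agent.H620R2.Gauge

/-- the test, entry by entry -/
structure Raw (q φ1 : ℕ) (δ : Bool) (t0 : ℕ) (x : List Bool) (l : List ℕ) (T : ℕ)
    (E : ℕ → Ent) : Prop where
  all : ∀ b ∈ x, b = true
  zero : 0 < T → (E 0).1 = 0
  succ : ∀ k, k + 1 < T → (E (k + 1)).1 = grL x (E k).2.1
  ok : ∀ k, k < T → entOK q φ1 δ x l (E k) = true
  idx : ∀ k, k < T → (E k).2.2.1 = 0 ∨ t0 ≤ k
  sum : x.length = ∑ k ∈ Finset.range T, (E k).2.2.1 * wtL q δ x (E k)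

theorem sum_map_getD (f : Ent → ℕ) (d : Ent) : ∀ es : List Ent,
    (es.map f).sum = ∑ k ∈ Finset.range es.length, f (es.getD k d) := by
  intro es
  induction es with
  | nil => simp
  | cons e es ih =>
      rw [List.map_cons, List.sum_cons, ih, List.length_cons, Finset.sum_range_succ']
      simp only [List.getD_cons_succ, List.getD_cons_zero]
      rw [add_comm]

theorem getD_of_lt {es : List Ent} {k : ℕ} (d : Ent) (h : k < es.length) :
    es.getD k d = es[k] := by
  rw [List.getD_eq_getElem?_getD, List.getElem?_eq_getElem h, Option.getD_some]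

theorem check_iff {q φ1 : ℕ} {δ : Bool} {t0 : ℕ} {x : List Bool} {es : List Ent} {l : List ℕ}
    (d : Ent) : check q φ1 δ t0 x es l = true ↔
      Raw q φ1 δ t0 x l es.length (fun k => es.getD k d) := by
  unfold check
  simp only [Bool.and_eq_true, List.all_eq_true, decide_eq_true_eq]
  constructor
  · rintro ⟨⟨⟨⟨h1, h2⟩, h3⟩, h4⟩, h5⟩
    refine ⟨h1, ?_, ?_, ?_, ?_, ?_⟩
    · intro h0
      have h6 : (es.map (fun e => e.1))[0]'(by simpa using h0) =
          ((0 :: es.map (fun e => grL x e.2.1)).dropLast)[0]'(by simpa using h0) := by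
        congr 1
      rw [List.getElem_dropLast] at h6
      simp only [List.getElem_map, List.getElem_cons_zero] at h6
      rw [getD_of_lt d h0]
      exact h6
    · intro k hk
      have h6 : (es.map (fun e => e.1))[k + 1]'(by simpa using hk) =
          ((0 :: es.map (fun e => grL x e.2.1)).dropLast)[k + 1]'(by simpa using hk) := by
        congr 1
      rw [List.getElem_dropLast] at h6
      simp only [List.getElem_map, List.getElem_cons_succ] at h6
      rw [getD_of_lt d hk, getD_of_lt d (by omega)]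
      exact h6
    · intro k hk
      rw [getD_of_lt d hk]
      exact h3 _ (List.getElem_mem hk)
    · intro k hk
      rw [getD_of_lt d hk]
      have h6 := h4 (es[k], k) (by
        rw [List.mem_iff_getElem]
        exact ⟨k, by simpa using hk, by simp⟩)
      simpa using h6
    · rw [h5, sum_map_getD _ d]
  · rintro ⟨h1, h2, h3, h4, h5, h6⟩
    refine ⟨⟨⟨⟨h1, ?_⟩, ?_⟩, ?_⟩, ?_⟩
    · apply List.ext_getElem
      · simp
      · intro k hk hk'
        have hk0 : k < es.length := by simpa using hk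
        rw [List.getElem_dropLast, List.getElem_map]
        cases k with
        | zero =>
            have := h2 hk0
            simp only [getD_of_lt d hk0] at this
            simpa using this
        | succ k =>
            have := h3 k hk0
            rw [getD_of_lt d hk0, getD_of_lt d (by omega)] at this
            simpa using this
    · intro e he
      obtain ⟨k, hk, rfl⟩ := List.mem_iff_getElem.mp he
      have := h4 k hk
      rwa [getD_of_lt d hk] at this
    · rintro ⟨e, k⟩ he
      rw [List.mem_iff_getElem] at he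
      obtain ⟨n, hn, h⟩ := he
      rw [List.getElem_zipIdx, Prod.mk.injEq] at h
      simp only [zero_add] at h
      obtain ⟨h7, h8⟩ := h
      subst h8
      rw [List.length_zipIdx] at hn
      have := h5 n hn
      rw [getD_of_lt d hn, h7] at this
      simpa using this
    · rw [h6, sum_map_getD _ d]

variable {F : Type} [Field F] [Fintype F] {φ : F ≃ Fin (Fintype.card F)}
  {M : Submodule F (ℕ →₀ F)} {V : List Bool → List Bool} {p : Polynomial ℕ}

/-- the indices used -/
def GG (φ : F ≃ Fin (Fintype.card F)) (hM : ¬ Module.Finite F ((ℕ →₀ F) ⧸ M)) (δ : Bool)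
    (t0 : ℕ) : Set ℕ := {t | t0 ≤ t ∧ (δ = true → EE φ M (cc hM (t + 1)) (ii hM t))}

theorem entOK_iff {q φ1 : ℕ} {δ : Bool} {x : List Bool} {l : List ℕ} {e : Ent} :
    entOK q φ1 δ x l e = true ↔ (e.1 < e.2.1 ∧ e.2.1 ≤ x.length ∧ e.2.2.1 < q) ∧
      leadK q x l e.2.1 = false ∧ (∀ j < e.2.1, j < x.length → j ≤ e.1 ∨ leadK q x l j = true) ∧
      (δ = true → e.2.2.1 ≠ 0 →
        φ1 * pwL q x (grL x e.2.1) ≤ min e.2.2.2.1 (q * x.length) ∧
        min e.2.2.2.1 (q * x.length) < φ1 * pwL q x (grL x e.2.1) + pwL q x e.2.1 ∧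
        min e.2.2.2.1 (q * x.length) ∈ l) := by
  unfold entOK entOK1 entOK2 entOK3 belL
  simp only [Bool.and_eq_true, Bool.or_eq_true, List.all_eq_true, decide_eq_true_eq,
    Bool.not_eq_true', List.mem_range, one_mul, lt_min_iff]
  constructor
  · rintro ⟨⟨⟨h1, h2⟩, h3⟩, h4⟩
    refine ⟨h1, h2, fun j hj hj' => h3 j ⟨hj, hj'⟩, ?_⟩
    intro hδ ha
    rcases h4 with (h4 | h4) | h4
    · rw [hδ] at h4; exact absurd h4 (by simp)
    · exact absurd h4 ha
    · exact ⟨h4.1.1, h4.1.2, h4.2⟩
  · rintro ⟨h1, h2, h3, h4⟩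
    refine ⟨⟨⟨h1, h2⟩, fun j hj => h3 j hj.1 hj.2⟩, ?_⟩
    by_cases hδ : δ = true
    · by_cases ha : e.2.2.1 = 0
      · exact Or.inl (Or.inr ha)
      · obtain ⟨h5, h6, h7⟩ := h4 hδ ha
        exact Or.inr ⟨⟨h5, h6⟩, h7⟩
    · exact Or.inl (Or.inl (by simpa using hδ))

/-- If `q ^ j` is at most the length, as far as it is computed, then it is computed. -/
theorem pwL_le_length {q : ℕ} (hq : 2 ≤ q) {x : List Bool} {j : ℕ} (h : pwL q x j ≤ x.length) :
    j ≤ x.length ∧ q ^ j ≤ x.length := by
  have h0 : x.length < q ^ x.length := Nat.lt_pow_self hq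
  have hj : j ≤ x.length := by
    by_contra hcon
    unfold pwL at h
    rw [one_mul, min_eq_right (by omega)] at h
    omega
  rw [pwL_of_le hj] at h
  exact ⟨hj, h⟩

section Sound

variable {φ1 : ℕ} {δ : Bool} {t0 : ℕ} {x : List Bool} {es : List Ent} {T : ℕ} {E : ℕ → Ent}

/-- The facts that hold for the entries up to one with a nonzero digit. -/
theorem raw_big (hR : Raw (Fintype.card F) φ1 δ t0 x (kn V (Fintype.card F) x es) T E) {t : ℕ}
    (ht : t < T) (ha : (E t).2.2.1 ≠ 0) :
    gr (E t).2.1 ≤ x.length ∧ Fintype.card F ^ gr (E t).2.1 ≤ x.length := by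
  have hq : 2 ≤ Fintype.card F := one_lt_card'
  have h1 : (E t).2.2.1 * wtL (Fintype.card F) δ x (E t) ≤ x.length := by
    calc _ ≤ ∑ k ∈ Finset.range T, (E k).2.2.1 * wtL (Fintype.card F) δ x (E k) :=
          Finset.single_le_sum (f := fun k => (E k).2.2.1 * wtL (Fintype.card F) δ x (E k))
            (fun _ _ => Nat.zero_le _) (Finset.mem_range.mpr ht)
      _ = x.length := hR.sum.symm
  have h2 : wtL (Fintype.card F) δ x (E t) ≤ x.length :=
    (Nat.le_mul_of_pos_left _ (Nat.pos_of_ne_zero ha)).trans h1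
  have h3 : pwL (Fintype.card F) x (grL x (E t).2.1) ≤ x.length := by
    unfold wtL at h2
    omega
  have h4 := (entOK_iff.mp (hR.ok t ht)).1.2.1
  have h5 := pwL_le_length hq h3
  rw [grL_of_le h4] at h5
  exact h5

theorem raw_step (hR : Raw (Fintype.card F) φ1 δ t0 x (kn V (Fintype.card F) x es) T E) {k : ℕ}
    (hk : k + 1 < T) : (E (k + 1)).1 = gr (E k).2.1 := by
  rw [hR.succ k hk, grL_of_le (entOK_iff.mp (hR.ok k (by omega))).1.2.1]

theorem raw_le (hR : Raw (Fintype.card F) φ1 δ t0 x (kn V (Fintype.card F) x es) T E) :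
    ∀ k, k < T → k ≤ (E k).1 := by
  intro k
  induction k with
  | zero => intro _; exact Nat.zero_le _
  | succ k ih =>
      intro hk
      have h1 := ih (by omega)
      have h2 := (entOK_iff.mp (hR.ok k (by omega))).1.1
      have h3 := lt_gr (E k).2.1
      rw [raw_step hR hk]
      omega

theorem raw_mono (hR : Raw (Fintype.card F) φ1 δ t0 x (kn V (Fintype.card F) x es) T E) {k : ℕ} :
    ∀ t, k ≤ t → t < T → (E k).2.1 ≤ (E t).2.1 := by
  intro t hkt
  induction t, hkt using Nat.le_induction with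
  | base => intro _; exact le_rfl
  | succ t hkt ih =>
      intro ht
      have h1 := ih (by omega)
      have h2 := (entOK_iff.mp (hR.ok (t + 1) ht)).1.1
      have h3 := lt_gr (E t).2.1
      rw [raw_step hR ht] at h2
      omega

/-- The chain of the entries is the true one. -/
theorem raw_chain (hφ : (φ 0 : ℕ) = 0) (hM : ¬ Module.Finite F ((ℕ →₀ F) ⧸ M))
    (hV : Good φ M V p) (hg : Grow (Fintype.card F) p t0)
    (hR : Raw (Fintype.card F) φ1 δ t0 x (kn V (Fintype.card F) x es) T E) {t : ℕ}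
    (ht : t < T) (ha : (E t).2.2.1 ≠ 0) :
    ∀ k, k ≤ t → (E k).1 = cc hM k ∧ (E k).2.1 = ii hM k := by
  obtain ⟨hb1, hb2⟩ := raw_big hR ht ha
  have hti : t0 ≤ (E t).2.1 := by
    have h1 := (hR.idx t ht).resolve_left ha
    have h2 := raw_le hR t ht
    have h3 := (entOK_iff.mp (hR.ok t ht)).1.1
    omega
  have key : ∀ k, k ≤ t → (E k).1 = cc hM k → (E k).2.1 = ii hM k := by
    intro k hk hc
    obtain ⟨⟨h1, h2, _⟩, h3, h4, _⟩ := entOK_iff.mp (hR.ok k (by omega))
    have hmono := raw_mono hR t hk ht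
    apply nxt_unique hM
    · rw [← hc]; exact h1
    · by_contra hf
      have := leadK_of_not_free hφ hV es hmono hg hti hb2 hf
      rw [this] at h3
      exact absurd h3 (by simp)
    · intro j hj hj'
      have h5 := (h4 j hj' (by omega)).resolve_left (by omega)
      exact not_free_of_leadK hφ hV (by omega) h5
  intro k
  induction k with
  | zero =>
      intro _
      have h0 : (E 0).1 = cc hM 0 := hR.zero (by omega)
      exact ⟨h0, key 0 (Nat.zero_le _) h0⟩
  | succ k ih =>
      intro hk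
      have h1 := ih (by omega)
      have h2 : (E (k + 1)).1 = cc hM (k + 1) := by
        rw [raw_step hR (by omega), h1.2, cc_succ]
      exact ⟨h2, key _ hk h2⟩

theorem sound (hφ : (φ 0 : ℕ) = 0) (hM : ¬ Module.Finite F ((ℕ →₀ F) ⧸ M))
    (hV : Good φ M V p) (hg : Grow (Fintype.card F) p t0)
    (hR : Raw (Fintype.card F) (φ 1) δ t0 x (kn V (Fintype.card F) x es) T E) :
    x ∈ tallyLang φ (WW hM δ (GG φ hM δ t0)) := by
  have hx : x = List.replicate x.length true := List.eq_replicate_of_mem hR.all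
  rw [hx, mem_tallyLang, memb_WW hφ]
  refine ⟨T, fun k => if k < T then (E k).2.2.1 else 0, ?_, ?_, ?_⟩
  · intro t
    simp only
    split
    · rename_i ht
      exact (entOK_iff.mp (hR.ok t ht)).1.2.2
    · exact card_pos'
  · intro t ht ha
    simp only [if_pos ht] at ha
    refine ⟨(hR.idx t ht).resolve_left ha, fun hδ => ?_⟩
    obtain ⟨hb1, hb2⟩ := raw_big hR ht ha
    obtain ⟨hc1, hc2⟩ := raw_chain hφ hM hV hg hR ht ha t le_rfl
    obtain ⟨⟨_, h1, _⟩, _, _, h2⟩ := entOK_iff.mp (hR.ok t ht)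
    obtain ⟨h3, h4, h5⟩ := h2 hδ ha
    rw [grL_of_le h1, pwL_of_le hb1] at h3 h4
    rw [pwL_of_le h1] at h4
    rw [cc_succ, ← hc2]
    exact ⟨_, memb_of_mem_kn hV h5, h3, h4⟩
  · conv_lhs => rw [hR.sum]
    apply Finset.sum_congr rfl
    intro t ht
    rw [Finset.mem_range] at ht
    simp only [if_pos ht]
    by_cases ha : (E t).2.2.1 = 0
    · rw [ha, zero_mul, zero_mul]
    · congr 1
      obtain ⟨hb1, hb2⟩ := raw_big hR ht ha
      obtain ⟨hc1, hc2⟩ := raw_chain hφ hM hV hg hR ht ha t le_rfl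
      have h1 := (entOK_iff.mp (hR.ok t ht)).1.2.1
      unfold wtL wt
      rw [grL_of_le h1, pwL_of_le hb1, pwL_of_le h1, cc_succ, ← hc2]

end Sound

section Complete

variable {δ : Bool} {t0 : ℕ}

/-- a nonzero combination has a last nonzero digit -/
theorem exists_last (a w : ℕ → ℕ) : ∀ T, ∑ t ∈ Finset.range T, a t * w t ≠ 0 →
    ∃ S, S < T ∧ a S ≠ 0 ∧ ∑ t ∈ Finset.range T, a t * w t =
      ∑ t ∈ Finset.range (S + 1), a t * w t := by
  intro T
  induction T with
  | zero => intro h; simp at h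
  | succ T ih =>
      intro h
      by_cases hT : a T = 0
      · have e : ∑ t ∈ Finset.range (T + 1), a t * w t = ∑ t ∈ Finset.range T, a t * w t := by
          rw [Finset.sum_range_succ, hT, zero_mul, add_zero]
        rw [e] at h ⊢
        obtain ⟨S, h1, h2, h3⟩ := ih h
        exact ⟨S, by omega, h2, h3⟩
      · exact ⟨T, by omega, hT, rfl⟩

theorem complete (hφ : (φ 0 : ℕ) = 0) (hM : ¬ Module.Finite F ((ℕ →₀ F) ⧸ M))
    (hV : Good φ M V p) (hg : Grow (Fintype.card F) p t0) {x : List Bool}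
    (hx : x ∈ tallyLang φ (WW hM δ (GG φ hM δ t0))) :
    ∃ es : List Ent, check (Fintype.card F) (φ 1) δ t0 x es (kn V (Fintype.card F) x es) = true ∧
      es.length ≤ x.length ∧
      ∀ e ∈ es, e.1 ≤ x.length ∧ e.2.1 ≤ x.length ∧ e.2.2.1 ≤ Fintype.card F ∧
        e.2.2.2.1 ≤ Fintype.card F * x.length ∧
        e.2.2.2.2.length ≤ p.eval (Fintype.card F * x.length) := by
  classical
  have hq : 2 ≤ Fintype.card F := one_lt_card'
  obtain ⟨N, rfl⟩ : ∃ N, x = List.replicate N true := by
    obtain ⟨v, _, hv⟩ := hx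
    exact ⟨_, hv⟩
  rw [mem_tallyLang, memb_WW hφ] at hx
  obtain ⟨T, a, ha, hG, hN⟩ := hx
  by_cases hN0 : N = 0
  · subst hN0
    refine ⟨[], ?_, by simp, by simp⟩
    rfl
  rw [hN] at hN0
  obtain ⟨S, hST, hS, hsum⟩ := exists_last a (wt hM δ) T hN0
  rw [hsum] at hN
  -- sizes
  have hgS := hG S hST hS
  have hwt : ∀ t, Fintype.card F ^ cc hM (t + 1) ≤ wt hM δ t := fun t => by
    unfold wt; omega
  have hN1 : Fintype.card F ^ cc hM (S + 1) ≤ N := by
    calc _ ≤ wt hM δ S := hwt S
      _ ≤ a S * wt hM δ S := Nat.le_mul_of_pos_left _ (Nat.pos_of_ne_zero hS)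
      _ ≤ N := by
        rw [hN]
        exact Finset.single_le_sum (f := fun t => a t * wt hM δ t)
          (fun _ _ => Nat.zero_le _) (Finset.mem_range.mpr (Nat.lt_succ_self S))
  have hcN : cc hM (S + 1) < N := lt_of_lt_of_le (Nat.lt_pow_self hq) hN1
  have hcc : ∀ t, t ≤ S → cc hM (t + 1) ≤ cc hM (S + 1) := fun t ht =>
    (cc_strictMono hM).monotone (by omega)
  have hiN : ∀ t, t ≤ S → ii hM t ≤ N := fun t ht => by
    have h1 := hcc t ht
    have h2 := ii_lt_cc hM t
    omega
  have hccN : ∀ t, t ≤ S → cc hM t ≤ N := fun t ht => by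
    have h1 := hiN t ht
    have h2 := cc_lt_ii hM t
    omega
  have ht0 : t0 ≤ ii hM S := by
    have h1 := lt_ii hM S
    have h2 := hgS.1
    omega
  have hSN : S + 1 ≤ N := by
    have h1 := lt_ii hM S
    have h2 := hiN S le_rfl
    omega
  have hqN : Fintype.card F ^ gr (ii hM S) ≤ N := hN1
  -- witnesses
  have hwit : ∀ t, ∃ (m : ℕ) (y : List Bool), m ≤ Fintype.card F * N ∧
      y.length ≤ p.eval (Fintype.card F * N) ∧
      (t ≤ S → δ = true → a t ≠ 0 → (φ 1 : ℕ) * Fintype.card F ^ cc hM (t + 1) ≤ m ∧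
        m < (φ 1 : ℕ) * Fintype.card F ^ cc hM (t + 1) + Fintype.card F ^ ii hM t ∧
        V (pairBits y (List.replicate m true)) = [true]) := by
    intro t
    by_cases hc : t ≤ S ∧ δ = true ∧ a t ≠ 0
    · obtain ⟨h1, h2, h3⟩ := hc
      obtain ⟨m, hm, h4, h5⟩ := (hG t (by omega) h3).2 h2
      obtain ⟨y, hy⟩ := (hV.acc m).mp hm
      have h6 : m ≤ Fintype.card F * N := by
        have e1 : Fintype.card F ^ ii hM t ≤ Fintype.card F ^ cc hM (t + 1) :=
          Nat.pow_le_pow_right (by omega) (ii_lt_cc hM t).le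
        have e2 : Fintype.card F ^ cc hM (t + 1) ≤ Fintype.card F ^ cc hM (S + 1) :=
          Nat.pow_le_pow_right (by omega) (hcc t h1)
        have e3 : (φ 1 : ℕ) + 1 ≤ Fintype.card F := (φ 1).2
        calc m ≤ (φ 1 : ℕ) * Fintype.card F ^ cc hM (t + 1) + Fintype.card F ^ cc hM (t + 1) := by
              omega
          _ = ((φ 1 : ℕ) + 1) * Fintype.card F ^ cc hM (t + 1) := by ring
          _ ≤ Fintype.card F * N := Nat.mul_le_mul e3 (by omega)
      refine ⟨m, y, h6, ?_, fun _ _ _ => ⟨h4, h5, hy⟩⟩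
      have h7 := hV.len _ _ hy
      rw [List.length_replicate] at h7
      exact h7.trans (eval_mono p h6)
    · exact ⟨0, [], Nat.zero_le _, Nat.zero_le _, fun h1 h2 h3 => absurd ⟨h1, h2, h3⟩ hc⟩
  choose m y hm1 hy1 hmy using hwit
  let E : ℕ → Ent := fun t => (cc hM t, ii hM t, a t, m t, y t)
  let es : List Ent := (List.range (S + 1)).map E
  have hlen : es.length = S + 1 := by simp [es]
  have hget : ∀ k, k < S + 1 → es.getD k (E 0) = E k := by
    intro k hk
    rw [getD_of_lt _ (by rw [hlen]; exact hk)]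
    simp [es]
  refine ⟨es, ?_, ?_, ?_⟩
  · rw [check_iff (E 0), hlen]
    have hl : (List.replicate N true).length = N := List.length_replicate
    have hgrL : ∀ t, t ≤ S → grL (List.replicate N true) (ii hM t) = cc hM (t + 1) := by
      intro t ht
      rw [grL_of_le (by rw [hl]; exact hiN t ht), cc_succ]
    have hpw : ∀ t, t ≤ S → pwL (Fintype.card F) (List.replicate N true) (cc hM (t + 1)) =
        Fintype.card F ^ cc hM (t + 1) := by
      intro t ht
      exact pwL_of_le (by rw [hl]; have := hcc t ht; omega)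
    have hpi : ∀ t, t ≤ S → pwL (Fintype.card F) (List.replicate N true) (ii hM t) =
        Fintype.card F ^ ii hM t := by
      intro t ht
      exact pwL_of_le (by rw [hl]; exact hiN t ht)
    refine ⟨fun b hb => (List.mem_replicate.mp hb).2, ?_, ?_, ?_, ?_, ?_⟩
    · intro _
      rw [hget 0 (by omega)]
      rfl
    · intro k hk
      rw [hget (k + 1) hk, hget k (by omega)]
      exact (hgrL k (by omega)).symm
    · intro k hk
      rw [hget k hk, entOK_iff]
      refine ⟨⟨cc_lt_ii hM k, by rw [hl]; exact hiN k (by omega), ha k⟩, ?_, ?_, ?_⟩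
      · rw [← Bool.not_eq_true]
        intro hcon
        exact not_free_of_leadK hφ hV (by rw [hl]; exact hiN k (by omega)) hcon
          (free_nxt hM (cc hM k))
      · intro j hj _
        by_cases hjc : j ≤ cc hM k
        · exact Or.inl hjc
        · right
          have h1 := not_free_of_lt_nxt hM (by omega : cc hM k < j) hj
          have h2 : ii hM k ≤ ii hM S := (ii_strictMono hM).monotone (by omega)
          refine leadK_of_not_free hφ hV es (i := ii hM S) ?_ hg ht0 (by rw [hl]; exact hqN) h1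
          exact (le_of_lt hj).trans h2
      · intro hδ hak
        obtain ⟨h1, h2, h3⟩ := hmy k (by omega) hδ hak
        have h4 : min (m k) (Fintype.card F * (List.replicate N true).length) = m k := by
          rw [hl]; exact min_eq_left (hm1 k)
        change (φ 1 : ℕ) * pwL _ _ (grL _ (ii hM k)) ≤ min (m k) _ ∧ min (m k) _ <
          (φ 1 : ℕ) * pwL _ _ (grL _ (ii hM k)) + pwL _ _ (ii hM k) ∧ min (m k) _ ∈ _
        rw [h4, hgrL k (by omega), hpw k (by omega), hpi k (by omega)]
        refine ⟨h1, h2, ?_⟩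
        rw [mem_kn card_pos']
        refine ⟨y k, mem_qs.mpr (Or.inr ⟨E k, ?_, rfl, h4⟩), h3⟩
        exact List.mem_map.mpr ⟨k, List.mem_range.mpr hk, rfl⟩
    · intro k hk
      rw [hget k hk]
      by_cases hak : a k = 0
      · exact Or.inl hak
      · exact Or.inr (hG k (by omega) hak).1
    · refine (hl.trans hN).trans (Finset.sum_congr rfl ?_)
      intro k hk
      rw [Finset.mem_range] at hk
      rw [hget k hk]
      change a k * wt hM δ k = a k * wtL _ _ _ (E k)
      congr 1
      unfold wt wtL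
      change _ = pwL _ _ (grL _ (ii hM k)) + if δ = true then pwL _ _ (ii hM k) else 0
      rw [hgrL k (by omega), hpw k (by omega), hpi k (by omega)]
  · rw [hlen, List.length_replicate]
    exact hSN
  · intro e he
    obtain ⟨k, hk, rfl⟩ := List.mem_map.mp he
    rw [List.mem_range] at hk
    rw [List.length_replicate]
    exact ⟨hccN k (by omega), hiN k (by omega), (ha k).le, hm1 k, hy1 k⟩

end Complete

end Pool.Agent.J4H95.TV
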