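import Pool.Agent.H620R2.Gauge2.Defs

/-!
# Subspaces of the tally representation of an infinite-dimensional vector space over a finite
field, in the class `NP` relative to an oracle: definitions

`Oracle` (a set of bit strings, given by its characteristic function), `IsFP` (polynomial time
relative to an oracle) and `IsNP` (`NP` relative to an oracle) are defined in
`Pool.Agent.H620R2.Gauge.Defs` and `Pool.Agent.H620R2.Gauge2.Defs`.
-/

namespace Pool.Agent.J4H95.TV

open Pool.Agent.NPC Pool.Agent.H620R2.Gauge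

variable {F : Type} [Field F] [Fintype F]

/-- The code `c(v) = ∑ φ(v_i) q^i` of the vector `v = ∑ v_i e_i`, where `φ` is a bijection
of the field `F` onto `{0, …, q - 1}`. The vector space `V_∞` is `ℕ →₀ F`. -/
noncomputable def code (φ : F ≃ Fin (Fintype.card F)) (v : ℕ →₀ F) : ℕ :=
  v.sum fun i a => (φ a : ℕ) * Fintype.card F ^ i

/-- The set of the tally strings `1^c(v)`, `v` in the subspace `S`. -/
def tallyLang (φ : F ≃ Fin (Fintype.card F)) (S : Submodule F (ℕ →₀ F)) : Set (List Bool) :=
  {x | ∃ v ∈ S, x = List.replicate (code φ v) true}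

/-- `S` is an `NP^A` subspace of `tal(V_∞)`. -/
def IsNPSub (A : Oracle) (φ : F ≃ Fin (Fintype.card F)) (S : Submodule F (ℕ →₀ F)) : Prop :=
  IsNP A (tallyLang φ S)

/-- `S` is an `NP^A`-simple subspace: it is an `NP^A` subspace of infinite codimension, and every
infinite `NP^A` subspace has a nonzero element in common with it. -/
def IsSimple (A : Oracle) (φ : F ≃ Fin (Fintype.card F)) (S : Submodule F (ℕ →₀ F)) : Prop :=
  IsNPSub A φ S ∧ ¬ Module.Finite F ((ℕ →₀ F) ⧸ S) ∧
    ∀ W : Submodule F (ℕ →₀ F), IsNPSub A φ W → (W : Set (ℕ →₀ F)).Infinite →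
      ∃ v ∈ W, v ∈ S ∧ v ≠ 0

/-- `M` is an `NP^A`-supermaximal subspace: it is an `NP^A` subspace of infinite codimension, and
for every `NP^A` subspace `W` containing `M` either `W` is the whole space or `W / M` (the image of
`W` in the quotient by `M`) is finite-dimensional. -/
def IsSupermaximal (A : Oracle) (φ : F ≃ Fin (Fintype.card F)) (M : Submodule F (ℕ →₀ F)) :
    Prop :=
  IsNPSub A φ M ∧ ¬ Module.Finite F ((ℕ →₀ F) ⧸ M) ∧
    ∀ W : Submodule F (ℕ →₀ F), IsNPSub A φ W → M ≤ W →
      W = ⊤ ∨ Module.Finite F (W.map M.mkQ)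

end Pool.Agent.J4H95.TV
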