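import Pool.Agent.J4H95.TV.Correct

/-!
# No `NP^A` subspace of the tally representation is `NP^A`-simple
-/

namespace Pool.Agent.J4H95.TV

open Pool.Agent.NPC Pool.Agent.H620R2.Gauge

/-- the entries given by a witness -/
def esOf (z : List Bool) : List Ent := (unbits (List Ent) (unpair z).1).getD []

theorem poly_esOf : NPC.Poly esOf := by
  have h : NPC.Poly (fun z : List Bool => unbits (List Ent) (unpair z).1) :=
    poly_unbits.comp (NPC.Poly.fst poly_unpair)
  unfold esOf
  exact Pool.Agent.NPC.Poly.optGetD h (NPC.Poly.const _)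

/-- the questions for the verifier `V` -/
def ell (q : ℕ) (z : List Bool) : List (List Bool) :=
  (qs q (unpair z).2 (esOf z)).map (fun p => pairBits p.1 (repL q (unpair z).2 p.2))

theorem poly_ell (q : ℕ) : NPC.Poly (ell q) := by
  have h1 : NPC.Poly (fun z : List Bool => (unpair z).2) := NPC.Poly.snd poly_unpair
  have h2 := poly_qs q h1 poly_esOf
  unfold ell
  refine NPC.Poly.map (F := fun z p => pairBits p.1 (repL q (unpair z).2 p.2)) h2 ?_
  exact poly_pairBits' (NPC.Poly.fst (NPC.Poly.snd NPC.Poly.id))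
    (poly_repL q (h1.comp (NPC.Poly.fst NPC.Poly.id)) (NPC.Poly.snd (NPC.Poly.snd NPC.Poly.id)))

/-- the answer -/
def psi (q φ1 : ℕ) (δ : Bool) (t0 : ℕ) (r : List Bool × List (List Bool)) : List Bool :=
  [check q φ1 δ t0 (unpair r.1).2 (esOf r.1) (knL q (unpair r.1).2 (esOf r.1) r.2)]

theorem poly_psi (q φ1 : ℕ) (δ : Bool) (t0 : ℕ) : NPC.Poly (psi q φ1 δ t0) := by
  have h1 : NPC.Poly (fun r : List Bool × List (List Bool) => (unpair r.1).2) :=
    NPC.Poly.snd (poly_unpair.comp (NPC.Poly.fst NPC.Poly.id))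
  have h2 : NPC.Poly (fun r : List Bool × List (List Bool) => esOf r.1) :=
    poly_esOf.comp (NPC.Poly.fst NPC.Poly.id)
  have h3 := poly_knL q h1 h2 (NPC.Poly.snd NPC.Poly.id)
  have h4 := poly_check q φ1 δ t0 h1 h2 h3
  unfold psi
  exact NPC.Poly.cons h4 (NPC.Poly.const _)

variable {F : Type} [Field F] [Fintype F] {φ : F ≃ Fin (Fintype.card F)}
  {M : Submodule F (ℕ →₀ F)} {V : List Bool → List Bool} {p : Polynomial ℕ} {A : Oracle}

theorem isNPSub_WW (hφ : (φ 0 : ℕ) = 0) (hM : ¬ Module.Finite F ((ℕ →₀ F) ⧸ M))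
    (hVA : IsFP A V) (hV : Good φ M V p) (δ : Bool) {t0 : ℕ}
    (hg : Grow (Fintype.card F) p t0) : IsNPSub A φ (WW hM δ (GG φ hM δ t0)) := by
  have h1 := isFP_map hVA (poly_ell (Fintype.card F))
    (poly_psi (Fintype.card F) (φ 1) δ t0)
  have key : ∀ w x : List Bool,
      psi (Fintype.card F) (φ 1) δ t0
        (pairBits w x, (ell (Fintype.card F) (pairBits w x)).map V) =
      [check (Fintype.card F) (φ 1) δ t0 x ((unbits (List Ent) w).getD [])
        (kn V (Fintype.card F) x ((unbits (List Ent) w).getD []))] := by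
    intro w x
    unfold psi ell kn esOf
    rw [unpair_pairBits]
  refine ⟨_, Polynomial.X * (Polynomial.C 8 * Polynomial.X + Polynomial.C (4 * Fintype.card F) +
    Polynomial.C (4 * Fintype.card F) * Polynomial.X +
    Polynomial.C 4 * p.comp (Polynomial.C (Fintype.card F) * Polynomial.X) +
    Polynomial.C 10) + Polynomial.C 1, h1, ?_⟩
  intro x
  constructor
  · intro hx
    obtain ⟨es, h2, h3, h4⟩ := complete hφ hM hV hg hx
    refine ⟨bits es, ?_, ?_⟩
    · rw [bits_length]
      simp only [Polynomial.eval_add, Polynomial.eval_mul, Polynomial.eval_C, Polynomial.eval_X,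
        Polynomial.eval_comp]
      have hsz : ∀ n : ℕ, sz n ≤ 4 * n + 1 := fun n => by
        have := sz_nat_le n
        have := NPC.Poly.size_le_self n
        omega
      have h5 := sz_le_length_mul es (8 * x.length + 4 * Fintype.card F +
        4 * Fintype.card F * x.length + 4 * p.eval (Fintype.card F * x.length) + 9) (by
          rintro ⟨c, i, a, m, y⟩ he
          obtain ⟨e1, e2, e3, e4, e5⟩ := h4 _ he
          simp only at e1 e2 e3 e4 e5
          have f1 := hsz c
          have f2 := hsz i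
          have f3 := hsz a
          have f4 := hsz m
          have f5 := sz_listBool_le y
          simp only [sz_pair]
          nlinarith)
      refine h5.trans (Nat.add_le_add_right (Nat.mul_le_mul h3 ?_) 1)
      omega
    · rw [key, unbits_bits, Option.getD_some, h2]
  · rintro ⟨w, _, hw⟩
    rw [key] at hw
    have h2 : check (Fintype.card F) (φ 1) δ t0 x ((unbits (List Ent) w).getD [])
        (kn V (Fintype.card F) x ((unbits (List Ent) w).getD [])) = true := by
      simpa using hw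
    exact sound hφ hM hV hg ((check_iff (0, 0, 0, 0, [])).mp h2)

theorem Grow.mono {q : ℕ} {t0 t1 : ℕ} (h : Grow q p t0) (h01 : t0 ≤ t1) : Grow q p t1 :=
  fun i hi => h i (h01.trans hi)

/-- Every `NP^A` subspace of infinite codimension is disjoint from an infinite `NP^A` subspace. -/
theorem exists_disjoint (hφ : (φ 0 : ℕ) = 0) (hM : ¬ Module.Finite F ((ℕ →₀ F) ⧸ M))
    (hNP : IsNPSub A φ M) : ∃ W : Submodule F (ℕ →₀ F), IsNPSub A φ W ∧
      (W : Set (ℕ →₀ F)).Infinite ∧ ∀ w ∈ W, w ∈ M → w = 0 := by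
  obtain ⟨V, p, hVA, hlen, hacc⟩ := exists_strict hNP
  have hV : Good φ M V p := ⟨hlen, fun m => by rw [← hacc, mem_tallyLang]⟩
  obtain ⟨t0, hg⟩ := exists_grow (one_lt_card' (F := F)) p
  by_cases hc : ∃ t1, ∀ t, t1 ≤ t → ¬ EE φ M (cc hM (t + 1)) (ii hM t)
  · obtain ⟨t1, ht1⟩ := hc
    have hg' := hg.mono (le_max_left t0 t1)
    refine ⟨_, isNPSub_WW hφ hM hVA hV false hg', ?_, ?_⟩
    · apply WW_infinite
      refine (Set.Ici_infinite (max t0 t1)).mono fun t ht => ⟨ht, fun h => by simp at h⟩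
    · intro w hw hwM
      exact inter_false hφ hM _ (fun t ht => ht1 t ((le_max_right _ _).trans ht.1)) w hw hwM
  · push Not at hc
    refine ⟨_, isNPSub_WW hφ hM hVA hV true hg, ?_, ?_⟩
    · apply WW_infinite
      rw [Set.infinite_iff_exists_gt]
      intro a
      obtain ⟨t, ht, hE⟩ := hc (max t0 (a + 1))
      refine ⟨t, ⟨(le_max_left _ _).trans ht, fun _ => hE⟩, ?_⟩
      have := (le_max_right t0 (a + 1)).trans ht
      omega
    · intro w hw hwM
      exact inter_true hφ hM _ (fun t ht => ht.2 rfl) w hw hwM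

theorem not_isSimple (hφ : (φ 0 : ℕ) = 0) (S : Submodule F (ℕ →₀ F)) : ¬ IsSimple A φ S := by
  rintro ⟨h1, h2, h3⟩
  obtain ⟨W, hW, hinf, hdis⟩ := exists_disjoint hφ h2 h1
  obtain ⟨v, hv, hvS, hne⟩ := h3 W hW hinf
  exact hne (hdis v hv hvS)

end Pool.Agent.J4H95.TV
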