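import Pool.Agent.H671R2.PolyAuto
import Pool.Agent.J4H95.TV.OMap

/-!
# Some polynomial-time functions with arguments bounded by the length of a string
-/

namespace Pool.Agent.J4H95.TV

open Pool.Agent.NPC

variable {α β : Type} [TEnc α] [TEnc β]

theorem size_pow_le (p k : ℕ) : (p ^ k).size ≤ k * p.size + 1 := by
  apply Nat.size_le.2
  rcases Nat.eq_zero_or_pos k with h | h
  · subst h; simp
  · calc p ^ k < (2 ^ p.size) ^ k := Nat.pow_lt_pow_left (Nat.lt_size_self p) h.ne'
      _ = 2 ^ (k * p.size) := by rw [← pow_mul, mul_comm]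
      _ ≤ _ := Nat.pow_le_pow_right (by norm_num) (by omega)

theorem poly_powc (p : ℕ) {n : α → ℕ} (hn : UPoly n) : NPC.Poly (fun a => p ^ n a) := by
  obtain ⟨r, hr⟩ := hn.sz_le
  have key : ∀ k x : ℕ, (fun y => y * p)^[k] x = x * p ^ k := by
    intro k
    induction k with
    | zero => intro x; simp
    | succ k ih => intro x; rw [Function.iterate_succ_apply, ih, pow_succ]; ring
  refine (NPC.Poly.iterLen (l := fun a => List.replicate (n a) ()) (s := fun _ => 1)
    (F := fun _ y => y * p) hn (NPC.Poly.const 1) (NPC.Poly.mul (NPC.Poly.snd NPC.Poly.id)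
      (NPC.Poly.const p))
    (Polynomial.C (4 * p.size) * r + Polynomial.C 10) ?_).congr fun a => ?_
  · intro a k hk
    rw [key, one_mul]
    have h1 := sz_nat_le (p ^ k)
    have h2 := size_pow_le p k
    have h3 := hr a
    have h4 := length_lt_sz (List.replicate (n a) ())
    have h5 : k ≤ r.eval (sz a) := by omega
    have h6 : k * p.size ≤ r.eval (sz a) * p.size := Nat.mul_le_mul_right _ h5
    simp only [Polynomial.eval_add, Polynomial.eval_mul, Polynomial.eval_C]
    nlinarith
  · rw [key, List.length_replicate, one_mul]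

theorem upoly_minLen {x : α → List Bool} {j : α → ℕ} (hx : NPC.Poly x) (hj : NPC.Poly j)
    (k : ℕ) : UPoly (fun a => min (j a) (k * (x a).length)) :=
  UPoly.of_le (NPC.Poly.min hj (NPC.Poly.mul (NPC.Poly.const k) (NPC.Poly.length hx)))
    (UPoly.mul (UPoly.const k) (UPoly.length hx)) fun _ => min_le_right _ _

/-- `q ^ j`, if `j` is at most the length of `x` -/
def pwL (q : ℕ) (x : List Bool) (j : ℕ) : ℕ := q ^ min j (1 * x.length)

theorem poly_pwL (q : ℕ) {x : α → List Bool} {j : α → ℕ} (hx : NPC.Poly x) (hj : NPC.Poly j) :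
    NPC.Poly (fun a => pwL q (x a) (j a)) := poly_powc q (upoly_minLen hx hj 1)

/-- `gr i`, if `i` is at most the length of `x` -/
def grL (x : List Bool) (i : ℕ) : ℕ :=
  2 ^ ((min i (1 * x.length) + 1) * (min i (1 * x.length) + 1))

theorem poly_grL {x : α → List Bool} {i : α → ℕ} (hx : NPC.Poly x) (hi : NPC.Poly i) :
    NPC.Poly (fun a => grL (x a) (i a)) :=
  poly_powc 2 (UPoly.mul (UPoly.add (upoly_minLen hx hi 1) (UPoly.const 1))
    (UPoly.add (upoly_minLen hx hi 1) (UPoly.const 1)))

/-- `[0, …, k |x| + k]` -/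
def rgL (k : ℕ) (x : List Bool) : List ℕ := List.range (k * x.length + k)

theorem poly_rgL (k : ℕ) {x : α → List Bool} (hx : NPC.Poly x) :
    NPC.Poly (fun a => rgL k (x a)) :=
  UPoly.range (UPoly.add (UPoly.mul (UPoly.const k) (UPoly.length hx)) (UPoly.const k))

/-- `[0, …, i - 1]`, if `i` is at most the length of `x` -/
def belL (x : List Bool) (i : ℕ) : List ℕ := List.range (min i (1 * x.length))

theorem poly_belL {x : α → List Bool} {i : α → ℕ} (hx : NPC.Poly x) (hi : NPC.Poly i) :
    NPC.Poly (fun a => belL (x a) (i a)) := UPoly.range (upoly_minLen hx hi 1)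

/-- `1 ^ m`, if `m` is at most `q |x|` -/
def repL (q : ℕ) (x : List Bool) (m : ℕ) : List Bool := List.replicate (min m (q * x.length)) true

theorem poly_repL (q : ℕ) {x : α → List Bool} {m : α → ℕ} (hx : NPC.Poly x) (hm : NPC.Poly m) :
    NPC.Poly (fun a => repL q (x a) (m a)) :=
  (NPC.Poly.map (F := fun a (_ : Unit) => true) (upoly_minLen hx hm q)
    (NPC.Poly.const true)).congr fun a => by simp [repL]

theorem poly_dropLast {l : α → List β} (hl : NPC.Poly l) :
    NPC.Poly (fun a => (l a).dropLast) := by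
  refine (NPC.Poly.reverse (NPC.Poly.tail (NPC.Poly.reverse hl))).congr ?_
  intro a
  simp

theorem poly_bits {n : α → ℕ} (hn : NPC.Poly n) : NPC.Poly (fun a => Nat.bits (n a)) :=
  NPC.Poly.natBits hn

theorem poly_pairBits' {x w : α → List Bool} (hx : NPC.Poly x) (hw : NPC.Poly w) :
    NPC.Poly (fun a => pairBits (x a) (w a)) := H622R2.poly_pairBits hx hw

theorem poly_unpair' {x : α → List Bool} (hx : NPC.Poly x) :
    NPC.Poly (fun a => unpair (x a)) := poly_unpair.comp hx

attribute [fun_prop] poly_pwL poly_grL poly_rgL poly_belL poly_repL poly_dropLast poly_bits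
  poly_pairBits' poly_unpair'

end Pool.Agent.J4H95.TV
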