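import Pool.Agent.J4H95.TV.Ver
import Pool.Agent.J4H95.TV.Chain

/-!
# The table of the known codes
-/

namespace Pool.Agent.J4H95.TV

open Pool.Agent.NPC Pool.Agent.H620R2.Gauge

theorem bits_valB_append : ∀ y : List Bool, (valB (y ++ [true])).bits = y ++ [true] := by
  intro y
  induction y with
  | nil => simp
  | cons b y ih =>
      have hne : valB (y ++ [true]) ≠ 0 := by
        intro h
        rw [h] at ih
        simp at ih
      rw [List.cons_append, valB_cons]
      have h1 : (if b = true then 1 else 0) + 2 * valB (y ++ [true]) =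
          Nat.bit b (valB (y ++ [true])) := by
        cases b <;> simp [Nat.bit] <;> omega
      rw [h1, Nat.bits_append_bit _ _ (fun h => absurd h hne), ih]

theorem valB_lt : ∀ y : List Bool, valB y < 2 ^ y.length := by
  intro y
  induction y with
  | nil => simp
  | cons b y ih =>
      rw [valB_cons, List.length_cons, pow_succ]
      split <;> omega

/-- Every short string is among the strings `(bits j).dropLast`. -/
theorem exists_short (x y : List Bool) (h : 2 ^ (y.length + 1) ≤ 4 * x.length + 4) :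
    ∃ j ∈ rgL 4 x, (Nat.bits j).dropLast = y := by
  refine ⟨valB (y ++ [true]), ?_, ?_⟩
  · have h1 := valB_lt (y ++ [true])
    rw [List.length_append, List.length_singleton] at h1
    rw [rgL, List.mem_range]
    omega
  · rw [bits_valB_append, List.dropLast_concat]

/-- The known codes, for the verifier `V`. -/
def kn (V : List Bool → List Bool) (q : ℕ) (x : List Bool) (es : List Ent) : List ℕ :=
  knL q x es (((qs q x es).map (fun p => pairBits p.1 (repL q x p.2))).map V)

theorem mem_qs {q : ℕ} {x : List Bool} {es : List Ent} {y : List Bool} {m : ℕ} :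
    (y, m) ∈ qs q x es ↔ (m ≤ x.length ∧ ∃ j ∈ rgL 4 x, (Nat.bits j).dropLast = y) ∨
      ∃ e ∈ es, e.2.2.2.2 = y ∧ min e.2.2.2.1 (q * x.length) = m := by
  unfold qs
  rw [List.mem_append, List.mem_flatMap, List.mem_map]
  constructor
  · rintro (⟨m', h1, h2⟩ | ⟨e, he, h⟩)
    · left
      rw [List.mem_map] at h2
      obtain ⟨j, hj, h⟩ := h2
      rw [Prod.mk.injEq] at h
      rw [rgL, List.mem_range] at h1
      refine ⟨by omega, j, hj, h.1⟩
    · right
      rw [Prod.mk.injEq] at h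
      exact ⟨e, he, h⟩
  · rintro (⟨h1, j, hj, h⟩ | ⟨e, he, h1, h2⟩)
    · left
      refine ⟨m, ?_, List.mem_map.mpr ⟨j, hj, by rw [h]⟩⟩
      rw [rgL, List.mem_range]
      omega
    · right
      exact ⟨e, he, by rw [h1, h2]⟩

theorem le_of_mem_qs {q : ℕ} (hq : 0 < q) {x : List Bool} {es : List Ent} {y : List Bool} {m : ℕ}
    (h : (y, m) ∈ qs q x es) : m ≤ q * x.length := by
  rcases mem_qs.mp h with ⟨h1, _⟩ | ⟨e, _, _, h2⟩
  · exact h1.trans (Nat.le_mul_of_pos_left _ hq)
  · rw [← h2]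
    exact min_le_right _ _

theorem mem_kn {V : List Bool → List Bool} {q : ℕ} (hq : 0 < q) {x : List Bool} {es : List Ent}
    {m : ℕ} : m ∈ kn V q x es ↔
      ∃ y, (y, m) ∈ qs q x es ∧ V (pairBits y (List.replicate m true)) = [true] := by
  unfold kn knL
  rw [List.map_map, List.mem_map]
  constructor
  · rintro ⟨⟨⟨y, m'⟩, a⟩, h1, h2⟩
    rw [List.mem_filter] at h1
    obtain ⟨h3, h4⟩ := h1
    simp only at h2
    subst h2
    rw [List.zip_map_right, List.mem_map] at h3
    obtain ⟨⟨p, p'⟩, h5, h6⟩ := h3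
    have h7 : p = p' := by
      obtain ⟨n, hn, h8⟩ := List.mem_iff_getElem.mp h5
      rw [List.getElem_zip] at h8
      rw [Prod.mk.injEq] at h8
      rw [← h8.1, ← h8.2]
    simp only [Prod.map, id, Prod.mk.injEq, Function.comp] at h6
    obtain ⟨h8, h9⟩ := h6
    rw [← h7, h8] at h9
    have h10 : (y, m') ∈ qs q x es := by
      rw [← h8]
      exact (List.of_mem_zip h5).1
    refine ⟨y, h10, ?_⟩
    have h11 := le_of_mem_qs hq h10
    simp only [repL, min_eq_left h11] at h9
    rw [h9]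
    simpa using h4
  · rintro ⟨y, h1, h2⟩
    refine ⟨((y, m), [true]), ?_, rfl⟩
    rw [List.mem_filter]
    refine ⟨?_, by simp⟩
    obtain ⟨n, hn, h8⟩ := List.mem_iff_getElem.mp h1
    rw [List.mem_iff_getElem]
    refine ⟨n, by simpa using hn, ?_⟩
    rw [List.getElem_zip, List.getElem_map, h8]
    have h11 := le_of_mem_qs hq h1
    simp only [Function.comp, repL, min_eq_left h11]
    rw [h2]

variable {F : Type} [Field F] [Fintype F] {φ : F ≃ Fin (Fintype.card F)}
  {M : Submodule F (ℕ →₀ F)} {V : List Bool → List Bool} {p : Polynomial ℕ}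

/-- `V` is a verifier of the tally language of `M`, with the length of witnesses `p`. -/
structure Good (φ : F ≃ Fin (Fintype.card F)) (M : Submodule F (ℕ →₀ F))
    (V : List Bool → List Bool) (p : Polynomial ℕ) : Prop where
  len : ∀ w x, V (pairBits w x) = [true] → w.length ≤ p.eval x.length
  acc : ∀ m, Memb φ M m ↔ ∃ w : List Bool, V (pairBits w (List.replicate m true)) = [true]

theorem memb_of_mem_kn (hV : Good φ M V p) {x : List Bool} {es : List Ent} {m : ℕ}
    (h : m ∈ kn V (Fintype.card F) x es) : Memb φ M m := by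
  obtain ⟨y, _, h2⟩ := (mem_kn card_pos').mp h
  exact (hV.acc m).mpr ⟨y, h2⟩

theorem mem_kn_of_small (hV : Good φ M V p) {x : List Bool} (es : List Ent) {m : ℕ}
    (hm : Memb φ M m) (h : m ≤ x.length) (h' : 2 ^ (p.eval m + 1) ≤ 4 * x.length + 4) :
    m ∈ kn V (Fintype.card F) x es := by
  rw [mem_kn card_pos']
  obtain ⟨y, hy⟩ := (hV.acc m).mp hm
  refine ⟨y, mem_qs.mpr (Or.inl ⟨h, exists_short x y (le_trans ?_ h')⟩), hy⟩
  have h1 := hV.len _ _ hy
  rw [List.length_replicate] at h1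
  exact Nat.pow_le_pow_right (by norm_num) (by omega)

/-- The function `gr` grows fast enough from `t0` on. -/
def Grow (q : ℕ) (p : Polynomial ℕ) (t0 : ℕ) : Prop :=
  ∀ i, t0 ≤ i → p.eval (q ^ (i + 1)) ≤ gr i

theorem poly_le_pow (p : Polynomial ℕ) : ∃ d, ∀ n, 2 ≤ n → p.eval n ≤ n ^ d := by
  induction p using Polynomial.induction_on' with
  | add p r hp hr =>
      obtain ⟨a, ha⟩ := hp
      obtain ⟨b, hb⟩ := hr
      refine ⟨max a b + 1, fun n hn => ?_⟩
      rw [Polynomial.eval_add]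
      have h1 : n ^ a ≤ n ^ max a b := Nat.pow_le_pow_right (by omega) (le_max_left _ _)
      have h2 : n ^ b ≤ n ^ max a b := Nat.pow_le_pow_right (by omega) (le_max_right _ _)
      have h3 := ha n hn
      have h4 := hb n hn
      calc p.eval n + r.eval n ≤ n ^ max a b * 2 := by omega
        _ ≤ n ^ max a b * n := Nat.mul_le_mul_left _ hn
        _ = n ^ (max a b + 1) := (pow_succ _ _).symm
  | monomial k c =>
      refine ⟨k + c, fun n hn => ?_⟩
      rw [Polynomial.eval_monomial, pow_add, mul_comm]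
      apply Nat.mul_le_mul_left
      calc c ≤ 2 ^ c := Nat.lt_two_pow_self.le
        _ ≤ n ^ c := Nat.pow_le_pow_left hn c

theorem exists_grow {q : ℕ} (hq : 2 ≤ q) (p : Polynomial ℕ) : ∃ t0, Grow q p t0 := by
  obtain ⟨d, hd⟩ := poly_le_pow p
  refine ⟨q * d, fun i hi => ?_⟩
  have h1 : 2 ≤ q ^ (i + 1) := by
    calc 2 ≤ q := hq
      _ = q ^ 1 := (pow_one _).symm
      _ ≤ q ^ (i + 1) := Nat.pow_le_pow_right (by omega) (by omega)
  calc p.eval (q ^ (i + 1)) ≤ (q ^ (i + 1)) ^ d := hd _ h1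
    _ = q ^ ((i + 1) * d) := (pow_mul _ _ _).symm
    _ ≤ (2 ^ q) ^ ((i + 1) * d) := Nat.pow_le_pow_left Nat.lt_two_pow_self.le _
    _ = 2 ^ (q * ((i + 1) * d)) := (pow_mul _ _ _).symm
    _ ≤ gr i := by
        apply Nat.pow_le_pow_right (by norm_num)
        calc q * ((i + 1) * d) = (i + 1) * (q * d) := by ring
          _ ≤ (i + 1) * (i + 1) := Nat.mul_le_mul_left _ (by omega)

theorem eval_mono (p : Polynomial ℕ) {m n : ℕ} (h : m ≤ n) : p.eval m ≤ p.eval n := by
  rw [Polynomial.eval_eq_sum, Polynomial.eval_eq_sum]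
  apply Finset.sum_le_sum
  intro i _
  exact Nat.mul_le_mul_left _ (Nat.pow_le_pow_left h i)

theorem pwL_of_le {q : ℕ} {x : List Bool} {j : ℕ} (h : j ≤ x.length) : pwL q x j = q ^ j := by
  unfold pwL
  rw [one_mul, min_eq_left h]

theorem grL_of_le {x : List Bool} {i : ℕ} (h : i ≤ x.length) : grL x i = gr i := by
  unfold grL gr
  rw [one_mul, min_eq_left h]

theorem leadK_iff {q : ℕ} {x : List Bool} {l : List ℕ} {j : ℕ} (h : j ≤ x.length) :
    leadK q x l j = true ↔ ∃ m ∈ l, q ^ j ≤ m ∧ m < q ^ (j + 1) := by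
  unfold leadK
  rw [List.any_eq_true]
  simp only [decide_eq_true_eq, pwL_of_le h]
  constructor
  · rintro ⟨m, hm, h1, h2⟩
    exact ⟨m, hm, h1, by rw [pow_succ, mul_comm]; exact h2⟩
  · rintro ⟨m, hm, h1, h2⟩
    exact ⟨m, hm, h1, by rw [pow_succ, mul_comm] at h2; exact h2⟩

theorem not_free_of_leadK (hφ : (φ 0 : ℕ) = 0) (hV : Good φ M V p) {x : List Bool}
    {es : List Ent} {j : ℕ} (h : j ≤ x.length)
    (hl : leadK (Fintype.card F) x (kn V (Fintype.card F) x es) j = true) : ¬ Free M j := by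
  obtain ⟨m, hm, h1⟩ := (leadK_iff h).mp hl
  exact (not_free_iff hφ M j).mpr ⟨m, memb_of_mem_kn hV hm, h1⟩

/-- The table is exact up to `i`, if `x` is long enough. -/
theorem leadK_of_not_free (hφ : (φ 0 : ℕ) = 0) (hV : Good φ M V p) {x : List Bool}
    (es : List Ent) {j i : ℕ} (hji : j ≤ i) {t0 : ℕ} (hg : Grow (Fintype.card F) p t0)
    (hi : t0 ≤ i) (hx : Fintype.card F ^ gr i ≤ x.length) (hf : ¬ Free M j) :
    leadK (Fintype.card F) x (kn V (Fintype.card F) x es) j = true := by
  have hq : 2 ≤ Fintype.card F := one_lt_card'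
  have hi1 : i < gr i := lt_gr i
  have hgx : gr i < x.length := lt_of_lt_of_le (Nat.lt_pow_self hq) hx
  have hpow : Fintype.card F ^ (j + 1) ≤ Fintype.card F ^ (i + 1) :=
    Nat.pow_le_pow_right (by omega) (by omega)
  have hpow2 : Fintype.card F ^ (i + 1) ≤ Fintype.card F ^ gr i :=
    Nat.pow_le_pow_right (by omega) (by omega)
  obtain ⟨m, hm, h1, h2⟩ := (not_free_iff hφ M j).mp hf
  refine (leadK_iff (by omega)).mpr ⟨m, mem_kn_of_small hV es hm (by omega) ?_, h1, h2⟩
  have h3 : p.eval m ≤ gr i := (eval_mono p (by omega)).trans (hg i hi)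
  calc 2 ^ (p.eval m + 1) ≤ 2 ^ (gr i + 1) := Nat.pow_le_pow_right (by norm_num) (by omega)
    _ = 2 * 2 ^ gr i := by rw [pow_succ, mul_comm]
    _ ≤ 2 * Fintype.card F ^ gr i := Nat.mul_le_mul_left _ (Nat.pow_le_pow_left hq _)
    _ ≤ 4 * x.length + 4 := by omega

end Pool.Agent.J4H95.TV
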