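import Pool.Agent.J4H95.TV.Prim

/-!
# The verifier, and its running time
-/

namespace Pool.Agent.J4H95.TV

open Pool.Agent.NPC Pool.Agent.H620R2.Gauge

/-- An entry of a witness: an element `c` of the chain, the free index `i`, the digit `a`,
the code `m` and a witness `y` for it. -/
abbrev Ent : Type := ℕ × ℕ × ℕ × ℕ × List Bool

/-- the questions: pairs of a witness and a code -/
def qs (q : ℕ) (x : List Bool) (es : List Ent) : List (List Bool × ℕ) :=
  (rgL 1 x).flatMap (fun m => (rgL 4 x).map (fun j => ((Nat.bits j).dropLast, m))) ++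
    es.map (fun e => (e.2.2.2.2, min e.2.2.2.1 (q * x.length)))

/-- the codes for which the answer is positive -/
def knL (q : ℕ) (x : List Bool) (es : List Ent) (ans : List (List Bool)) : List ℕ :=
  (((qs q x es).zip ans).filter (fun p => decide (p.2 = [true]))).map (fun p => p.1.2)

/-- some known code has its leading digit at `j` -/
def leadK (q : ℕ) (x : List Bool) (kn : List ℕ) (j : ℕ) : Bool :=
  kn.any (fun m => decide (pwL q x j ≤ m ∧ m < q * pwL q x j))

/-- the first test for an entry -/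
def entOK1 (q : ℕ) (x : List Bool) (kn : List ℕ) (e : Ent) : Bool :=
  decide (e.1 < e.2.1 ∧ e.2.1 ≤ x.length ∧ e.2.2.1 < q) && !(leadK q x kn e.2.1)

/-- the second test for an entry -/
def entOK2 (q : ℕ) (x : List Bool) (kn : List ℕ) (e : Ent) : Bool :=
  (belL x e.2.1).all (fun j => decide (j ≤ e.1) || leadK q x kn j)

/-- the third test for an entry -/
def entOK3 (q φ1 : ℕ) (x : List Bool) (kn : List ℕ) (e : Ent) : Bool :=
  decide (φ1 * pwL q x (grL x e.2.1) ≤ min e.2.2.2.1 (q * x.length) ∧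
    min e.2.2.2.1 (q * x.length) < φ1 * pwL q x (grL x e.2.1) + pwL q x e.2.1) &&
    decide (min e.2.2.2.1 (q * x.length) ∈ kn)

/-- the test for one entry -/
def entOK (q φ1 : ℕ) (δ : Bool) (x : List Bool) (kn : List ℕ) (e : Ent) : Bool :=
  entOK1 q x kn e && entOK2 q x kn e &&
    (!δ || decide (e.2.2.1 = 0) || entOK3 q φ1 x kn e)

/-- the weight of the digit -/
def wtL (q : ℕ) (δ : Bool) (x : List Bool) (e : Ent) : ℕ :=
  pwL q x (grL x e.2.1) + if δ = true then pwL q x e.2.1 else 0

/-- the test -/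
def check (q φ1 : ℕ) (δ : Bool) (t0 : ℕ) (x : List Bool) (es : List Ent) (kn : List ℕ) : Bool :=
  x.all (fun b => b) &&
    decide (es.map (fun e => e.1) = (0 :: es.map (fun e => grL x e.2.1)).dropLast) &&
    es.all (fun e => entOK q φ1 δ x kn e) &&
    es.zipIdx.all (fun p => decide (p.1.2.2.1 = 0 ∨ t0 ≤ p.2)) &&
    decide (x.length = (es.map (fun e => e.2.2.1 * wtL q δ x e)).sum)

variable {α : Type} [TEnc α]

theorem poly_qs (q : ℕ) {x : α → List Bool} {es : α → List Ent} (hx : NPC.Poly x)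
    (hes : NPC.Poly es) : NPC.Poly (fun a => qs q (x a) (es a)) := by
  unfold qs
  fun_prop

theorem poly_knL (q : ℕ) {x : α → List Bool} {es : α → List Ent} {ans : α → List (List Bool)}
    (hx : NPC.Poly x) (hes : NPC.Poly es) (hans : NPC.Poly ans) :
    NPC.Poly (fun a => knL q (x a) (es a) (ans a)) := by
  have := poly_qs q hx hes
  unfold knL
  fun_prop

theorem poly_leadK (q : ℕ) {x : α → List Bool} {kn : α → List ℕ} {j : α → ℕ}
    (hx : NPC.Poly x) (hkn : NPC.Poly kn) (hj : NPC.Poly j) :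
    NPC.Poly (fun a => leadK q (x a) (kn a) (j a)) := by
  unfold leadK
  fun_prop

attribute [fun_prop] poly_leadK

theorem poly_entOK1 (q : ℕ) {x : α → List Bool} {kn : α → List ℕ} {e : α → Ent}
    (hx : NPC.Poly x) (hkn : NPC.Poly kn) (he : NPC.Poly e) :
    NPC.Poly (fun a => entOK1 q (x a) (kn a) (e a)) := by
  unfold entOK1
  fun_prop

theorem poly_entOK2 (q : ℕ) {x : α → List Bool} {kn : α → List ℕ} {e : α → Ent}
    (hx : NPC.Poly x) (hkn : NPC.Poly kn) (he : NPC.Poly e) :
    NPC.Poly (fun a => entOK2 q (x a) (kn a) (e a)) := by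
  unfold entOK2
  fun_prop

theorem poly_entOK3 (q φ1 : ℕ) {x : α → List Bool} {kn : α → List ℕ} {e : α → Ent}
    (hx : NPC.Poly x) (hkn : NPC.Poly kn) (he : NPC.Poly e) :
    NPC.Poly (fun a => entOK3 q φ1 (x a) (kn a) (e a)) := by
  have hm : NPC.Poly (fun a => min (e a).2.2.2.1 (q * (x a).length)) := by fun_prop
  have hg : NPC.Poly (fun a => φ1 * pwL q (x a) (grL (x a) (e a).2.1)) := by fun_prop
  have hp : NPC.Poly (fun a => pwL q (x a) (e a).2.1) := by fun_prop
  unfold entOK3
  exact NPC.Poly.and (NPC.Poly.decide_and (NPC.Poly.decide_le hg hm)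
    (NPC.Poly.decide_lt hm (NPC.Poly.add hg hp))) (NPC.Poly.decide_mem hm hkn)

attribute [fun_prop] poly_entOK1 poly_entOK2 poly_entOK3

theorem poly_entOK (q φ1 : ℕ) (δ : Bool) {x : α → List Bool} {kn : α → List ℕ} {e : α → Ent}
    (hx : NPC.Poly x) (hkn : NPC.Poly kn) (he : NPC.Poly e) :
    NPC.Poly (fun a => entOK q φ1 δ (x a) (kn a) (e a)) := by
  unfold entOK
  fun_prop

theorem poly_wtL (q : ℕ) (δ : Bool) {x : α → List Bool} {e : α → Ent}
    (hx : NPC.Poly x) (he : NPC.Poly e) :
    NPC.Poly (fun a => wtL q δ (x a) (e a)) := by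
  unfold wtL
  cases δ with
  | false => simp only [Bool.false_eq_true, if_false]; fun_prop
  | true => simp only [if_true]; fun_prop

attribute [fun_prop] poly_entOK poly_wtL

theorem poly_check (q φ1 : ℕ) (δ : Bool) (t0 : ℕ) {x : α → List Bool} {es : α → List Ent}
    {kn : α → List ℕ} (hx : NPC.Poly x) (hes : NPC.Poly es) (hkn : NPC.Poly kn) :
    NPC.Poly (fun a => check q φ1 δ t0 (x a) (es a) (kn a)) := by
  unfold check
  fun_prop

end Pool.Agent.J4H95.TV
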